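import Pool.Agent.R498.MX.MX14

/-!
Few primes modulo which four independent rational numbers generate a small group.
-/

set_option autoImplicit false

namespace Pool.Agent.Run7.h166.SP

open Finset Filter
open Pool.Agent.R498.MX (Qs Qs_mem Ind gm_rat Mr_ne)

/-- four independent rational numbers -/
theorem gm_four (b : Fin 4 → ℚ) (hb : ∀ i, b i ≠ 0) (hI : Ind b) : ∃ (C : ℝ) (H : ℕ), 0 < C ∧
    ∀ N : ℕ, 1 ≤ N → ∃ B : Finset ℕ, (#B : ℝ) ≤ C * (N : ℝ) ^ (0.95 : ℝ) ∧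
      ∀ p : ℕ, p.Prime → H < p → p ∉ B → ∀ g : ℕ, 0 < g → (g : ℝ) ≤ (N : ℝ) ^ (0.76 : ℝ) →
        ¬ ∀ i, (((b i).num : ℤ) : ZMod p) ^ g = (((b i).den : ℕ) : ZMod p) ^ g := by
  obtain ⟨H, hH⟩ : ∃ H : ℕ, H = 1 + ∑ i, ((b i).num.natAbs + (b i).den) := ⟨_, rfl⟩
  have hHi : ∀ i, (b i).num.natAbs + (b i).den ≤ H := by
    intro i
    have := Finset.single_le_sum (f := fun i => (b i).num.natAbs + (b i).den) (fun j _ => Nat.zero_le _)
      (mem_univ i)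
    omega
  refine ⟨3 ^ 4 * (8 * H + 1), H, by positivity, fun N hN => ?_⟩
  have hN1 : (1 : ℝ) ≤ N := by exact_mod_cast hN
  obtain ⟨u, hu⟩ : ∃ u : ℝ, u = (N : ℝ) ^ (0.19 : ℝ) := ⟨_, rfl⟩
  have hu1 : 1 ≤ u := by
    rw [hu]
    exact Real.one_le_rpow hN1 (by norm_num)
  have hu4 : u ^ 4 = (N : ℝ) ^ (0.76 : ℝ) := by
    rw [hu, ← Real.rpow_natCast, ← Real.rpow_mul (by linarith)]
    norm_num
  have hu5 : u ^ 5 = (N : ℝ) ^ (0.95 : ℝ) := by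
    rw [hu, ← Real.rpow_natCast, ← Real.rpow_mul (by linarith)]
    norm_num
  obtain ⟨n, hn⟩ : ∃ n, n = ⌊u⌋₊ := ⟨_, rfl⟩
  have hnu : (n : ℝ) ≤ u := by rw [hn]; exact Nat.floor_le (by linarith)
  have hun : u < (n : ℝ) + 1 := by rw [hn]; exact Nat.lt_floor_add_one u
  obtain ⟨B, hB1, hB2⟩ := gm_rat (fun i => (b i).num) (fun i => ((b i).den : ℤ)) H (by omega)
    (fun i => by have := hHi i; omega) (fun i => by
      have := hHi i
      rw [Int.natAbs_natCast]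
      omega)
    (fun v hv => Mr_ne hb hI hv) n
  refine ⟨B, ?_, ?_⟩
  · have h3 : (B.card : ℝ) ≤ (2 * n + 1) ^ 4 * (2 * 4 * n * H + 1) := by exact_mod_cast hB1
    refine h3.trans ?_
    have h4 : (2 * (n : ℝ) + 1) ^ 4 ≤ 3 ^ 4 * u ^ 4 := by
      rw [← mul_pow]
      apply pow_le_pow_left₀ (by positivity)
      linarith
    have h5 : (2 * 4 * n * H + 1 : ℝ) ≤ (8 * H + 1) * u := by
      have h7 : (0 : ℝ) ≤ 8 * H := by positivity
      nlinarith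
    calc (2 * (n : ℝ) + 1) ^ 4 * (2 * 4 * n * H + 1) ≤ (3 ^ 4 * u ^ 4) * ((8 * H + 1) * u) := by gcongr
      _ = 3 ^ 4 * (8 * H + 1) * u ^ 5 := by ring
      _ = _ := by rw [hu5]
  · intro p hp hpH hpB g hg0 hg hall
    apply hpB
    have hnd : ∀ m : ℕ, m ≠ 0 → m ≤ H → ¬ p ∣ m := by
      intro m hm hmH hd
      have := Nat.le_of_dvd (Nat.pos_of_ne_zero hm) hd
      omega
    apply hB2 p hp _ _ g hg0 _ _
    · intro i hd
      refine hnd (b i).num.natAbs ?_ ?_ (Int.natCast_dvd.1 hd)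
      · rw [Int.natAbs_ne_zero]
        exact Rat.num_ne_zero.2 (hb i)
      · have := hHi i; omega
    · intro i hd
      refine hnd (b i).den (b i).den_nz ?_ (Int.natCast_dvd_natCast.1 hd)
      have := hHi i; omega
    · have h1 : (g : ℝ) < ((n + 1) ^ 4 : ℕ) := by
        push_cast
        calc (g : ℝ) ≤ u ^ 4 := by rw [hu4]; exact hg
          _ < ((n : ℝ) + 1) ^ 4 := pow_lt_pow_left₀ hun (by linarith) (by omega)
      exact_mod_cast h1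
    · intro i
      have := hall i
      push_cast
      exact this

/-- at most four large prime factors -/
theorem four_large (N : ℕ) (hN : 2 ≤ N) (q : ℕ) (hq0 : q ≠ 0) (hq : q ≤ N) :
    (q.primeFactors.filter (fun l : ℕ => (N : ℝ) ^ (0.24 : ℝ) ≤ l)).card ≤ 4 := by
  have hN2 : (2 : ℝ) ≤ N := by exact_mod_cast hN
  obtain ⟨s, hs⟩ : ∃ s, s = q.primeFactors.filter (fun l : ℕ => (N : ℝ) ^ (0.24 : ℝ) ≤ l) := ⟨_, rfl⟩
  rw [← hs]
  have h1 : (∏ l ∈ s, l) ≤ q := by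
    apply Nat.le_of_dvd (Nat.pos_of_ne_zero hq0)
    refine (Finset.prod_dvd_prod_of_subset s q.primeFactors (fun l => l) ?_).trans
      (Nat.prod_primeFactors_dvd q)
    rw [hs]
    exact filter_subset _ _
  have h2 : ((N : ℝ) ^ (0.24 : ℝ)) ^ s.card ≤ ((∏ l ∈ s, l : ℕ) : ℝ) := by
    rw [← Finset.prod_const]
    push_cast
    apply Finset.prod_le_prod
    · intro l _
      positivity
    · intro l hl
      rw [hs, mem_filter] at hl
      exact hl.2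
  have h3 : ((N : ℝ) ^ (0.24 : ℝ)) ^ s.card ≤ (N : ℝ) ^ (1 : ℝ) := by
    refine h2.trans ?_
    rw [Real.rpow_one]
    exact_mod_cast h1.trans hq
  rw [← Real.rpow_natCast, ← Real.rpow_mul (by linarith)] at h3
  have h4 : 0.24 * (s.card : ℝ) ≤ 1 := by
    by_contra hcon
    push Not at hcon
    exact absurd h3 (not_le.2 (Real.rpow_lt_rpow_of_exponent_lt (by linarith) hcon))
  by_contra hcon
  push Not at hcon
  have h5 : (5 : ℝ) ≤ s.card := by exact_mod_cast hcon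
  linarith

open Classical in
/-- for a finite set of rational numbers -/
theorem few_four (F : Finset ℚˣ) : ∃ (C : ℝ) (H : ℕ), 0 < C ∧ ∀ N : ℕ, 2 ≤ N → ∃ B : Finset ℕ,
    (#B : ℝ) ≤ C * (N : ℝ) ^ (0.95 : ℝ) ∧ ∀ (p : ℕ) (hp : p.Prime), H < p → p ≤ N → p ∉ B →
      ∀ l : ℕ, l.Prime → l ∣ p - 1 → (N : ℝ) ^ (0.24 : ℝ) ≤ l → ∀ b : Fin 4 → ℚˣ,
        (∀ j, b j ∈ F ∧ b j ∈ Qs p hp ((p - 1) / l)) →
          ¬ ∀ e : Fin 4 → ℤ, ∏ j, b j ^ e j = 1 → ∀ j, e j = 0 := by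
  obtain ⟨I, hI⟩ : ∃ I : Finset (Fin 4 → ℚˣ), I = (Fintype.piFinset (fun _ : Fin 4 => F)).filter
    (fun b => ∀ e : Fin 4 → ℤ, ∏ j, b j ^ e j = 1 → ∀ j, e j = 0) := ⟨_, rfl⟩
  have h : ∀ b : Fin 4 → ℚˣ, ∃ (C : ℝ) (H : ℕ), 0 < C ∧ (b ∈ I → ∀ N : ℕ, 1 ≤ N → ∃ B : Finset ℕ,
      (#B : ℝ) ≤ C * (N : ℝ) ^ (0.95 : ℝ) ∧
      ∀ p : ℕ, p.Prime → H < p → p ∉ B → ∀ g : ℕ, 0 < g → (g : ℝ) ≤ (N : ℝ) ^ (0.76 : ℝ) →
        ¬ ∀ i, ((((b i : ℚˣ) : ℚ).num : ℤ) : ZMod p) ^ g = ((((b i : ℚˣ) : ℚ).den : ℕ) : ZMod p) ^ g) := by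
    intro b
    by_cases hb : b ∈ I
    · rw [hI, mem_filter] at hb
      obtain ⟨C, H, hC, h1⟩ := gm_four (fun j => ((b j : ℚˣ) : ℚ)) (fun j => (b j).ne_zero) (by
        intro e he
        apply hb.2 e
        apply Units.ext
        rw [Units.val_one, ← he]
        push_cast
        rfl)
      exact ⟨C, H, hC, fun _ => h1⟩
    · exact ⟨1, 0, one_pos, fun h => absurd h hb⟩
  choose C H hC hB using h
  have hCs : 0 ≤ ∑ b ∈ I, C b := Finset.sum_nonneg fun b _ => (hC b).le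
  refine ⟨∑ b ∈ I, C b + 1, ∑ b ∈ I, H b, by linarith, fun N hN => ?_⟩
  have hN2 : (2 : ℝ) ≤ N := by exact_mod_cast hN
  have hBJ : ∀ b : Fin 4 → ℚˣ, ∃ B : Finset ℕ, b ∈ I → (#B : ℝ) ≤ C b * (N : ℝ) ^ (0.95 : ℝ) ∧
      ∀ p : ℕ, p.Prime → H b < p → p ∉ B → ∀ g : ℕ, 0 < g → (g : ℝ) ≤ (N : ℝ) ^ (0.76 : ℝ) →
        ¬ ∀ i, ((((b i : ℚˣ) : ℚ).num : ℤ) : ZMod p) ^ g = ((((b i : ℚˣ) : ℚ).den : ℕ) : ZMod p) ^ g := by
    intro b
    by_cases hb : b ∈ I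
    · obtain ⟨B, hB'⟩ := hB b hb N (by omega)
      exact ⟨B, fun _ => hB'⟩
    · exact ⟨∅, fun h => absurd h hb⟩
  choose BJ hBJ using hBJ
  refine ⟨I.biUnion BJ, ?_, ?_⟩
  · have h1 : ((I.biUnion BJ).card : ℝ) ≤ ∑ b ∈ I, ((BJ b).card : ℝ) := by exact_mod_cast card_biUnion_le
    have h2 : ∑ b ∈ I, ((BJ b).card : ℝ) ≤ (∑ b ∈ I, C b) * (N : ℝ) ^ (0.95 : ℝ) := by
      rw [sum_mul]
      exact sum_le_sum fun b hb => (hBJ b hb).1
    have h4 : 0 ≤ (N : ℝ) ^ (0.95 : ℝ) := by positivity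
    nlinarith
  · intro p hp hpH hpN hpB l hl hlp hlN b hb hind
    have hbI : b ∈ I := by
      rw [hI, mem_filter, Fintype.mem_piFinset]
      exact ⟨fun j => (hb j).1, hind⟩
    have hp10 : 0 < p - 1 := by have := hp.two_le; omega
    have hHb := Finset.single_le_sum (f := H) (fun j _ => Nat.zero_le _) hbI
    refine (hBJ b hbI).2 p hp (by omega) (fun h1 => hpB (mem_biUnion.2 ⟨b, hbI, h1⟩)) ((p - 1) / l)
      (Nat.div_pos (Nat.le_of_dvd hp10 hlp) hl.pos) ?_ ?_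
    · refine Nat.cast_div_le.trans ?_
      have e1 : ((p - 1 : ℕ) : ℝ) ≤ N := by
        have : p - 1 ≤ N := by omega
        exact_mod_cast this
      have hNd : (0 : ℝ) < (N : ℝ) ^ (0.24 : ℝ) := by positivity
      calc ((p - 1 : ℕ) : ℝ) / l ≤ N / (N : ℝ) ^ (0.24 : ℝ) := by gcongr
        _ = (N : ℝ) ^ (1 : ℝ) / (N : ℝ) ^ (0.24 : ℝ) := by rw [Real.rpow_one]
        _ = (N : ℝ) ^ (0.76 : ℝ) := by
          rw [← Real.rpow_sub (by linarith)]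
          norm_num
    · intro i
      have := (hb i).2
      rw [Qs_mem] at this
      exact this.2

end Pool.Agent.Run7.h166.SP
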