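import Pool.Agent.R498.MX.MX14

/-!
Strings of consecutive primes: for many strings the traces on a given finite set of rational numbers of the
groups of `l`-th powers (`l ∣ p - 1`, `p` in the string) are the same, and do not contain many independent numbers.
-/

set_option autoImplicit false

namespace Pool.Agent.Run7.h166.SP

open Finset Filter
open Pool.Agent.R498.MX (Qs Ind strings gmfamX few_large pow_log_small)

/-- no `K` independent elements -/
def NoInd (K : ℕ) (X : Set ℚˣ) : Prop :=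
  ∀ b : Fin K → ℚˣ, (∀ j, b j ∈ X) → ¬ ∀ e : Fin K → ℤ, ∏ j, b j ^ e j = 1 → ∀ j, e j = 0

/-- the group of the rational numbers whose `(p-1)/l`-th power is `1` modulo `p` -/
noncomputable def QQ (p l : ℕ) : Subgroup ℚˣ := by
  classical exact if hp : p.Prime then Qs p hp ((p - 1) / l) else ⊥

theorem QQ_eq (p l : ℕ) (hp : p.Prime) : QQ p l = Qs p hp ((p - 1) / l) := by
  unfold QQ
  rw [dif_pos hp]

open Classical in
/-- a finite set of subgroups as a list of given length -/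
theorem as_list (M : ℕ) (B : Finset (Subgroup ℚˣ)) (hB : B.card ≤ M) :
    ∃ V : Fin M → Subgroup ℚˣ, (∀ G ∈ B, ∃ i, V i = G) ∧ ∀ i, V i ∈ B ∨ V i = ⊥ := by
  refine ⟨fun i => B.toList.getD i ⊥, ?_, ?_⟩
  · intro G hG
    have h1 : G ∈ B.toList := Finset.mem_toList.2 hG
    obtain ⟨n, hn, h2⟩ := List.getElem_of_mem h1
    have h3 : n < M := by
      rw [Finset.length_toList] at hn
      omega
    refine ⟨⟨n, h3⟩, ?_⟩
    simp only
    rw [List.getD_eq_getElem _ _ hn, h2]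
  · intro i
    by_cases hi : (i : ℕ) < B.toList.length
    · left
      simp only
      rw [List.getD_eq_getElem _ _ hi]
      exact Finset.mem_toList.1 (List.getElem_mem hi)
    · right
      simp only
      rw [List.getD_eq_default _ _ (by omega)]

open Classical in
/-- **one level** -/
theorem level (r : ℕ) : ∃ K M B P₀ : ℕ, 1 ≤ K ∧
    ∀ W : ℕ, 0 < W → (∀ p : ℕ, p.Prime → p ≤ P₀ → p ∣ W) → 2 ∣ W → ∀ c : ℕ, c.Coprime W → ∀ F : Finset ℚˣ,
    ∃ S : ℕ, ∀ᶠ N : ℕ in atTop, ∃ V : Fin M → Subgroup ℚˣ,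
      (∀ i, NoInd K {w | w ∈ F ∧ w ∈ V i}) ∧
      (N : ℝ) ≤ Real.log N ^ B * #{n ∈ Ioc N (2 * N) | r < #{p ∈ Icc n (n + S) | p.Prime} ∧
        ∀ p ∈ Icc n (n + S), ∀ hp : p.Prime, p ≡ c [MOD W] ∧
          ∀ l : ℕ, l.Prime → ¬ l ∣ W → l ∣ p - 1 →
            ∃ i, ∀ w ∈ F, w ∈ Qs p hp ((p - 1) / l) ↔ w ∈ V i} := by
  obtain ⟨k, P₀, B, δ, hδ, -, hstr⟩ := strings r
  obtain ⟨K, hK⟩ : ∃ K : ℕ, K = ⌈2 / δ⌉₊ := ⟨_, rfl⟩
  have hK1 : 1 ≤ K := by
    rw [hK]
    exact Nat.one_le_ceil_iff.2 (by positivity)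
  refine ⟨K, 2 ^ k * K, B + 1, P₀, hK1, fun W hW0 hWp h2W c hcW F => ?_⟩
  obtain ⟨S, hS⟩ := hstr W hW0 hWp
  refine ⟨S, ?_⟩
  obtain ⟨I, hI⟩ : ∃ I : Finset (Fin K → ℚˣ), I = (Fintype.piFinset (fun _ : Fin K => F)).filter
    (fun b => ∀ e : Fin K → ℤ, ∏ j, b j ^ e j = 1 → ∀ j, e j = 0) := ⟨_, rfl⟩
  obtain ⟨C₁, H₀, hC₁, hgm⟩ := gmfamX δ hδ K hK I 1 le_rfl W h2W
    (fun b p l => ∃ hp : p.Prime, ∀ j, b j ∈ Qs p hp ((p - 1) / l)) 0 (by
      intro J hJI hJc
      obtain ⟨b, rfl⟩ := Finset.card_eq_one.1 hJc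
      have hb : b ∈ I := hJI (mem_singleton_self b)
      rw [hI, mem_filter] at hb
      refine ⟨fun j => ((b j : ℚˣ) : ℚ), fun j => (b j).ne_zero, ?_, ?_⟩
      · intro e he
        apply hb.2 e
        apply Units.ext
        rw [Units.val_one, ← he]
        push_cast
        rfl
      · intro p l hp _ _ _ _ hall j
        obtain ⟨_, h2⟩ := hall b (mem_singleton_self b)
        have h3 := h2 j
        rw [Pool.Agent.R498.MX.Qs_mem] at h3
        exact h3.2)
  obtain ⟨e, he⟩ : ∃ e : ℝ, e = (1 / (K : ℝ)) ^ 2 := ⟨_, rfl⟩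
  have hK0 : (0 : ℝ) < K := by exact_mod_cast hK1
  have he0 : 0 < e := by rw [he]; positivity
  obtain ⟨M, hM⟩ : ∃ M : ℕ, M = 2 ^ k * K := ⟨_, rfl⟩
  obtain ⟨Q, hQ⟩ : ∃ Q : ℕ, Q = (2 ^ F.card) ^ M := ⟨_, rfl⟩
  have hQ0 : (0 : ℝ) < Q := by
    rw [hQ]
    positivity
  filter_upwards [hS, pow_log_small e (2 ^ k * C₁ * 2) B he0 (by positivity),
    (Real.tendsto_log_atTop.comp tendsto_natCast_atTop_atTop).eventually_ge_atTop (2 * (Q : ℝ)),
    (Real.tendsto_log_atTop.comp tendsto_natCast_atTop_atTop).eventually_ge_atTop (1 : ℝ),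
    eventually_ge_atTop (H₀ + 3)] with N hN hNs hNl hNl1 hN3
  simp only [Function.comp_apply] at hNl hNl1
  have hN0 : (0 : ℝ) < N := by exact_mod_cast (show 0 < N by omega)
  obtain ⟨H, hHm, hHk, hHS, T, hT, hmem⟩ := hN c hcW
  obtain ⟨Bs, hB1, hB2⟩ := hgm N (by omega)
  rw [← he] at hB1
  -- remove the exceptional primes
  obtain ⟨T', hT'⟩ : ∃ T', T' = T.filter (fun n => ∀ h ∈ H, n + h ∉ Bs) := ⟨_, rfl⟩
  have hTT' : (T.card : ℝ) ≤ 2 * T'.card := by
    have h1 : T ⊆ T' ∪ H.biUnion (fun h => T.filter (fun n => n + h ∈ Bs)) := by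
      intro n hn
      rw [mem_union]
      by_cases h2 : ∀ h ∈ H, n + h ∉ Bs
      · left
        rw [hT', mem_filter]
        exact ⟨hn, h2⟩
      · right
        push Not at h2
        obtain ⟨h, hh, h3⟩ := h2
        rw [mem_biUnion]
        exact ⟨h, hh, mem_filter.2 ⟨hn, h3⟩⟩
    have h2 : (H.biUnion (fun h => T.filter (fun n => n + h ∈ Bs))).card ≤ 2 ^ k * Bs.card := by
      refine card_biUnion_le.trans ((sum_le_card_nsmul _ _ Bs.card fun h _ => ?_).trans ?_)
      · apply card_le_card_of_injOn (fun n => n + h)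
        · intro n hn
          rw [mem_coe, mem_filter] at hn
          exact hn.2
        · intro a _ a' _ haa
          have : a + h = a' + h := haa
          omega
      · rw [smul_eq_mul]
        exact Nat.mul_le_mul_right _ hHk
    have h3 : T.card ≤ T'.card + 2 ^ k * Bs.card :=
      (card_le_card h1).trans ((card_union_le _ _).trans (Nat.add_le_add_left h2 _))
    have h3r : (T.card : ℝ) ≤ T'.card + 2 ^ k * Bs.card := by exact_mod_cast h3
    have h4 : 2 * (2 ^ k * (Bs.card : ℝ)) ≤ T.card := by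
      have h5 : (0 : ℝ) < Real.log N ^ B := by positivity
      have h6 : Real.log N ^ B * (2 * (2 ^ k * (Bs.card : ℝ))) ≤ N := by
        calc Real.log N ^ B * (2 * (2 ^ k * (Bs.card : ℝ)))
            ≤ Real.log N ^ B * (2 * (2 ^ k * (C₁ * (N : ℝ) ^ (1 - e)))) := by gcongr
          _ = (2 ^ k * C₁ * 2 * Real.log N ^ B) * (N : ℝ) ^ (1 - e) := by ring
          _ ≤ (N : ℝ) ^ e * (N : ℝ) ^ (1 - e) := by gcongr
          _ = N := by
            rw [← Real.rpow_add hN0]
            norm_num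
      exact le_of_mul_le_mul_left (h6.trans hT) h5
    linarith
  have hT'0 : 0 < (T'.card : ℝ) := by
    have h1 : (0 : ℝ) < T.card := by
      by_contra hcon
      push Not at hcon
      have h2 : (T.card : ℝ) = 0 := le_antisymm hcon (Nat.cast_nonneg _)
      rw [h2, mul_zero] at hT
      linarith
    linarith
  -- the groups of a string
  obtain ⟨𝔹, h𝔹⟩ : ∃ 𝔹 : ℕ → Finset (Subgroup ℚˣ), 𝔹 = fun n => H.biUnion (fun h =>
    ((n + h - 1).primeFactors.filter (fun l => ¬ l ∣ W)).image (fun l => QQ (n + h) l)) := ⟨_, rfl⟩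
  have h𝔹c : ∀ n ∈ T', (𝔹 n).card ≤ M := by
    intro n hn
    rw [hT', mem_filter] at hn
    obtain ⟨hnT, -⟩ := hn
    obtain ⟨g1, g2, g3, g4, g5⟩ := hmem n hnT
    rw [h𝔹]
    refine card_biUnion_le.trans ((sum_le_card_nsmul _ _ K fun h hh => ?_).trans ?_)
    · refine card_image_le.trans ?_
      have h3 := hHS h hh
      rw [hK]
      refine le_trans (card_le_card ?_) (few_large δ hδ N (by omega) (n + h - 1) (by omega) ?_)
      · intro l hl
        rw [mem_filter, Nat.mem_primeFactors] at hl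
        rw [mem_filter, Nat.mem_primeFactors]
        exact ⟨hl.1, g4 h hh l hl.1.1 hl.2 hl.1.2.1⟩
      · calc n + h - 1 ≤ 2 * N := by omega
          _ ≤ N ^ 2 := by nlinarith
    · rw [smul_eq_mul, hM]
      exact Nat.mul_le_mul_right _ hHk
  have hVn : ∀ n, ∃ V : Fin M → Subgroup ℚˣ, n ∈ T' →
      (∀ G ∈ 𝔹 n, ∃ i, V i = G) ∧ ∀ i, V i ∈ 𝔹 n ∨ V i = ⊥ := by
    intro n
    by_cases hn : n ∈ T'
    · obtain ⟨V, hV⟩ := as_list M (𝔹 n) (h𝔹c n hn)
      exact ⟨V, fun _ => hV⟩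
    · exact ⟨fun _ => ⊥, fun h => absurd h hn⟩
  choose Vn hVn using hVn
  -- pigeonhole
  obtain ⟨f, hf⟩ : ∃ f : ℕ → Fin M → Finset ℚˣ, f = fun n i => F.filter (fun w => w ∈ Vn n i) := ⟨_, rfl⟩
  obtain ⟨y, -, hy⟩ := Finset.exists_le_card_fiber_of_nsmul_le_card_of_maps_to
    (s := T') (t := Fintype.piFinset (fun _ : Fin M => F.powerset)) (f := f) (b := (T'.card : ℝ) / Q)
    (by
      intro n _
      rw [Fintype.mem_piFinset]
      intro i
      rw [mem_powerset, hf]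
      exact filter_subset _ _)
    ⟨fun _ => ∅, by
      rw [Fintype.mem_piFinset]
      intro i
      rw [mem_powerset]
      exact empty_subset _⟩
    (by
      rw [Fintype.card_piFinset, prod_const, card_univ, Fintype.card_fin, card_powerset, ← hQ, nsmul_eq_mul,
        mul_div_cancel₀ _ hQ0.ne'])
  obtain ⟨Y, hY⟩ : ∃ Y, Y = T'.filter (fun n => f n = y) := ⟨_, rfl⟩
  rw [← hY] at hy
  have hY0 : Y.Nonempty := by
    rw [← card_pos]
    have : (0 : ℝ) < Y.card := lt_of_lt_of_le (by positivity) hy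
    exact_mod_cast this
  obtain ⟨n₀, hn₀⟩ := hY0
  rw [hY, mem_filter] at hn₀
  rw [← hM]
  refine ⟨Vn n₀, ?_, ?_⟩
  · -- few independent elements
    intro i b hb hind
    have hbF : ∀ j, b j ∈ F := fun j => (hb j).1
    have hbV : ∀ j, b j ∈ Vn n₀ i := fun j => (hb j).2
    rcases (hVn n₀ hn₀.1).2 i with h1 | h1
    · have hbI : b ∈ I := by
        rw [hI, mem_filter, Fintype.mem_piFinset]
        exact ⟨hbF, hind⟩
      rw [h𝔹] at h1
      rw [mem_biUnion] at h1
      obtain ⟨h, hh, h2⟩ := h1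
      rw [mem_image] at h2
      obtain ⟨l, hl, h3⟩ := h2
      rw [mem_filter, Nat.mem_primeFactors] at hl
      have hn1 := hn₀.1
      rw [hT', mem_filter] at hn1
      obtain ⟨hnT, hnB⟩ := hn1
      obtain ⟨g1, g2, g3, g4, g5⟩ := hmem n₀ hnT
      have hhS := hHS h hh
      have h4 := hB2 (n₀ + h) (g3 h hh).1 (by omega) (by omega) (g4 h hh) (hnB h hh)
      rw [Nat.sub_self, mul_zero, Nat.le_zero, card_eq_zero] at h4
      have h5 : b ∈ I.filter (fun i => ∃ l : ℕ, l.Prime ∧ ¬ l ∣ W ∧ l ∣ n₀ + h - 1 ∧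
          ∃ hp : (n₀ + h).Prime, ∀ j, i j ∈ Qs (n₀ + h) hp ((n₀ + h - 1) / l)) := by
        rw [mem_filter]
        refine ⟨hbI, l, hl.1.1, hl.2, hl.1.2.1, (g3 h hh).1, fun j => ?_⟩
        rw [← QQ_eq, h3]
        exact hbV j
      rw [h4] at h5
      exact absurd h5 (notMem_empty _)
    · have hb1 : ∀ j, b j = 1 := by
        intro j
        have := hbV j
        rw [h1, Subgroup.mem_bot] at this
        exact this
      have := hind (fun _ => 1) (by
        apply prod_eq_one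
        intro j _
        rw [hb1 j, one_zpow]) ⟨0, hK1⟩
      exact one_ne_zero this
  · -- many strings
    obtain ⟨Z, hZ⟩ : ∃ Z : Finset ℕ, Z = (Ioc N (2 * N)).filter (fun n =>
      r < #{p ∈ Icc n (n + S) | p.Prime} ∧
        ∀ p ∈ Icc n (n + S), ∀ hp : p.Prime, p ≡ c [MOD W] ∧
          ∀ l : ℕ, l.Prime → ¬ l ∣ W → l ∣ p - 1 →
            ∃ i, ∀ w ∈ F, w ∈ Qs p hp ((p - 1) / l) ↔ w ∈ Vn n₀ i) := ⟨_, rfl⟩
    rw [← hZ]
    have hYZ : Y ⊆ Z := by
      intro n hn
      rw [hY, mem_filter] at hn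
      obtain ⟨hnT', hfn⟩ := hn
      have hnT'' := hnT'
      rw [hT', mem_filter] at hnT'
      obtain ⟨hnT, hnB⟩ := hnT'
      obtain ⟨g1, g2, g3, g4, g5⟩ := hmem n hnT
      rw [hZ, mem_filter]
      refine ⟨mem_Ioc.2 ⟨g1, by omega⟩, ?_, ?_⟩
      · refine lt_of_lt_of_le hHm ?_
        apply card_le_card_of_injOn (fun h => n + h)
        · intro h hh
          rw [mem_coe] at hh
          have h3 := hHS h hh
          have h4 : n ≤ n + h ∧ n + h ≤ n + S := ⟨by omega, by omega⟩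
          exact mem_coe.2 (mem_filter.2 ⟨mem_Icc.2 h4, (g3 h hh).1⟩)
        · intro a _ a' _ haa
          have : n + a = n + a' := haa
          omega
      · intro p hp hpp
        rw [mem_Icc] at hp
        obtain ⟨h, rfl⟩ := Nat.exists_eq_add_of_le hp.1
        have hh : h ∈ H := g5 h (by omega) hpp
        refine ⟨(g3 h hh).2, fun l hl hlW hld => ?_⟩
        have h1 : QQ (n + h) l ∈ 𝔹 n := by
          rw [h𝔹]
          rw [mem_biUnion]
          refine ⟨h, hh, mem_image.2 ⟨l, mem_filter.2 ⟨Nat.mem_primeFactors.2 ⟨hl, hld, ?_⟩, hlW⟩, rfl⟩⟩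
          have := hpp.two_le
          omega
        obtain ⟨i, hi⟩ := (hVn n hnT'').1 _ h1
        refine ⟨i, fun w hw => ?_⟩
        rw [← QQ_eq, ← hi]
        have h2 : f n i = f n₀ i := by rw [hfn, hn₀.2]
        rw [hf] at h2
        have h3 := Finset.ext_iff.1 h2 w
        simp only [mem_filter] at h3
        constructor
        · intro h4
          exact (h3.1 ⟨hw, h4⟩).2
        · intro h4
          exact (h3.2 ⟨hw, h4⟩).2
    have h1 : (Y.card : ℝ) ≤ Z.card := by exact_mod_cast card_le_card hYZ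
    have h2 : (T'.card : ℝ) ≤ Q * Z.card := by
      have h3 : (T'.card : ℝ) / Q ≤ Z.card := hy.trans h1
      rw [div_le_iff₀ hQ0] at h3
      linarith
    have h9 : (T.card : ℝ) ≤ Real.log N * Z.card := by
      have h10 : (0 : ℝ) ≤ Z.card := Nat.cast_nonneg _
      calc (T.card : ℝ) ≤ 2 * T'.card := hTT'
        _ ≤ 2 * (Q * Z.card) := by linarith
        _ = (2 * (Q : ℝ)) * Z.card := by ring
        _ ≤ Real.log N * Z.card := mul_le_mul_of_nonneg_right hNl h10
    have h10 : (0 : ℝ) ≤ Real.log N ^ B := by positivity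
    calc (N : ℝ) ≤ Real.log N ^ B * T.card := hT
      _ ≤ Real.log N ^ B * (Real.log N * Z.card) := by gcongr
      _ = _ := by rw [← mul_assoc, pow_succ]

end Pool.Agent.Run7.h166.SP
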