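import Pool.Agent.Run7.h166.SP.Level

/-!
Simultaneous primitive roots: passage to the limit.  The groups of `l`-th powers modulo the primes of suitable
strings converge to finitely many groups without `K` independent elements.
-/

set_option autoImplicit false

namespace Pool.Agent.Run7.h166.SP

open Finset Filter
open Pool.Agent.R498.MX (Qs)

/-- the limit of a family of subgroups along an ultrafilter -/
def limSub (U : Ultrafilter ℕ) (V : ℕ → Subgroup ℚˣ) : Subgroup ℚˣ where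
  carrier := {w | ∀ᶠ n in (U : Filter ℕ), w ∈ V n}
  one_mem' := Eventually.of_forall (fun n => (V n).one_mem)
  mul_mem' := fun {a b} ha hb => by
    have ha' : ∀ᶠ n in (U : Filter ℕ), a ∈ V n := ha
    have hb' : ∀ᶠ n in (U : Filter ℕ), b ∈ V n := hb
    change ∀ᶠ n in (U : Filter ℕ), a * b ∈ V n
    filter_upwards [ha', hb'] with n h1 h2 using (V n).mul_mem h1 h2
  inv_mem' := fun {a} ha => by
    have ha' : ∀ᶠ n in (U : Filter ℕ), a ∈ V n := ha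
    change ∀ᶠ n in (U : Filter ℕ), a⁻¹ ∈ V n
    filter_upwards [ha'] with n h1 using (V n).inv_mem h1

theorem mem_limSub (U : Ultrafilter ℕ) (V : ℕ → Subgroup ℚˣ) (w : ℚˣ) :
    w ∈ limSub U V ↔ ∀ᶠ n in (U : Filter ℕ), w ∈ V n := Iff.rfl

open Classical in
theorem limit (r : ℕ) : ∃ K M B : ℕ, 1 ≤ K ∧ ∀ a : ℕ → ℕ, (∀ m, 0 < m → (a m).Coprime m) →
    ∃ V : Fin M → Subgroup ℚˣ, (∀ i, NoInd K (V i : Set ℚˣ)) ∧
    ∀ Y : Finset (Fin M → ℚˣ), (∀ y ∈ Y, ∀ i, y i ∉ V i) → ∀ m : ℕ, ∃ W S : ℕ, 0 < W ∧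
      (∀ d ≤ m, 0 < d → d ∣ W) ∧ ∀ A : ℕ, ∃ N ≥ A,
      (N : ℝ) ≤ Real.log N ^ B * #{n ∈ Ioc N (2 * N) | r < #{p ∈ Icc n (n + S) | p.Prime} ∧
        ∀ p ∈ Icc n (n + S), ∀ hp : p.Prime, p ≡ a W [MOD W] ∧
          ∀ l : ℕ, l.Prime → ¬ l ∣ W → l ∣ p - 1 → ∀ y ∈ Y, ∃ i, y i ∉ Qs p hp ((p - 1) / l)} := by
  obtain ⟨K, M, B, P₀, hK, hlev⟩ := level r
  refine ⟨K, M, B, hK, fun a ha => ?_⟩
  have : Countable ℚˣ := Function.Injective.countable (f := fun w : ℚˣ => (w : ℚ)) Units.val_injective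
  obtain ⟨g, hg⟩ := exists_surjective_nat ℚˣ
  obtain ⟨W, hW⟩ : ∃ W : ℕ → ℕ, W = fun z => (z + P₀ + 2).factorial := ⟨_, rfl⟩
  obtain ⟨F, hF⟩ : ∃ F : ℕ → Finset ℚˣ, F = fun z => (range z).image g := ⟨_, rfl⟩
  have hWd : ∀ z d, 0 < d → d ≤ z + P₀ + 2 → d ∣ W z := by
    intro z d h1 h2
    rw [hW]
    exact Nat.dvd_factorial h1 h2
  have hW0 : ∀ z, 0 < W z := fun z => by rw [hW]; exact Nat.factorial_pos _
  have hl : ∀ z, ∃ S : ℕ, ∀ᶠ N : ℕ in atTop, ∃ V : Fin M → Subgroup ℚˣ,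
      (∀ i, NoInd K {w | w ∈ F z ∧ w ∈ V i}) ∧
      (N : ℝ) ≤ Real.log N ^ B * #{n ∈ Ioc N (2 * N) | r < #{p ∈ Icc n (n + S) | p.Prime} ∧
        ∀ p ∈ Icc n (n + S), ∀ hp : p.Prime, p ≡ a (W z) [MOD (W z)] ∧
          ∀ l : ℕ, l.Prime → ¬ l ∣ (W z) → l ∣ p - 1 →
            ∃ i, ∀ w ∈ F z, w ∈ Qs p hp ((p - 1) / l) ↔ w ∈ V i} := fun z =>
    hlev (W z) (hW0 z) (fun p hp hpP => hWd z p hp.pos (by omega)) (hWd z 2 (by norm_num) (by omega))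
      (a (W z)) (ha _ (hW0 z)) (F z)
  choose S hS using hl
  -- the groups for all `N`
  obtain ⟨V, hV⟩ : ∃ V : ℕ → ℕ → Fin M → Subgroup ℚˣ, ∀ z, ∀ᶠ N : ℕ in atTop,
      (∀ i, NoInd K {w | w ∈ F z ∧ w ∈ V z N i}) ∧
      (N : ℝ) ≤ Real.log N ^ B * #{n ∈ Ioc N (2 * N) | r < #{p ∈ Icc n (n + S z) | p.Prime} ∧
        ∀ p ∈ Icc n (n + S z), ∀ hp : p.Prime, p ≡ a (W z) [MOD (W z)] ∧
          ∀ l : ℕ, l.Prime → ¬ l ∣ (W z) → l ∣ p - 1 →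
            ∃ i, ∀ w ∈ F z, w ∈ Qs p hp ((p - 1) / l) ↔ w ∈ V z N i} := by
    have h1 : ∀ z N : ℕ, ∃ V : Fin M → Subgroup ℚˣ, (∃ V : Fin M → Subgroup ℚˣ,
      (∀ i, NoInd K {w | w ∈ F z ∧ w ∈ V i}) ∧
      (N : ℝ) ≤ Real.log N ^ B * #{n ∈ Ioc N (2 * N) | r < #{p ∈ Icc n (n + S z) | p.Prime} ∧
        ∀ p ∈ Icc n (n + S z), ∀ hp : p.Prime, p ≡ a (W z) [MOD (W z)] ∧
          ∀ l : ℕ, l.Prime → ¬ l ∣ (W z) → l ∣ p - 1 →
            ∃ i, ∀ w ∈ F z, w ∈ Qs p hp ((p - 1) / l) ↔ w ∈ V i}) →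
      (∀ i, NoInd K {w | w ∈ F z ∧ w ∈ V i}) ∧
      (N : ℝ) ≤ Real.log N ^ B * #{n ∈ Ioc N (2 * N) | r < #{p ∈ Icc n (n + S z) | p.Prime} ∧
        ∀ p ∈ Icc n (n + S z), ∀ hp : p.Prime, p ≡ a (W z) [MOD (W z)] ∧
          ∀ l : ℕ, l.Prime → ¬ l ∣ (W z) → l ∣ p - 1 →
            ∃ i, ∀ w ∈ F z, w ∈ Qs p hp ((p - 1) / l) ↔ w ∈ V i} := by
      intro z N
      by_cases h : ∃ V : Fin M → Subgroup ℚˣ,
        (∀ i, NoInd K {w | w ∈ F z ∧ w ∈ V i}) ∧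
        (N : ℝ) ≤ Real.log N ^ B * #{n ∈ Ioc N (2 * N) | r < #{p ∈ Icc n (n + S z) | p.Prime} ∧
          ∀ p ∈ Icc n (n + S z), ∀ hp : p.Prime, p ≡ a (W z) [MOD (W z)] ∧
            ∀ l : ℕ, l.Prime → ¬ l ∣ (W z) → l ∣ p - 1 →
              ∃ i, ∀ w ∈ F z, w ∈ Qs p hp ((p - 1) / l) ↔ w ∈ V i}
      · obtain ⟨V, hV⟩ := h
        exact ⟨V, fun _ => hV⟩
      · exact ⟨fun _ => ⊥, fun h' => absurd h' h⟩
    choose V hV using h1
    refine ⟨V, fun z => ?_⟩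
    filter_upwards [hS z] with N hN using hV z N hN
  obtain ⟨U, hU⟩ : ∃ U : Ultrafilter ℕ, U = hyperfilter ℕ := ⟨_, rfl⟩
  have hUat : (U : Filter ℕ) ≤ atTop := by
    rw [hU]
    exact Nat.hyperfilter_le_atTop
  have hFe : ∀ w : ℚˣ, ∀ᶠ z in (U : Filter ℕ), w ∈ F z := by
    intro w
    obtain ⟨n, hn⟩ := hg w
    apply hUat
    filter_upwards [eventually_gt_atTop n] with z hz
    rw [hF]
    exact mem_image.2 ⟨n, mem_range.2 hz, hn⟩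
  refine ⟨fun i => limSub U (fun z => limSub U (fun N => V z N i)), ?_, ?_⟩
  · intro i b hb
    have h1 : ∀ j, ∀ᶠ z in (U : Filter ℕ), ∀ᶠ N in (U : Filter ℕ), b j ∈ V z N i := fun j => hb j
    obtain ⟨z, hz1, hz2⟩ := ((eventually_all.2 h1).and (eventually_all.2 (fun j => hFe (b j)))).exists
    obtain ⟨N, hN1, hN2⟩ := ((eventually_all.2 hz1).and ((hV z).filter_mono hUat)).exists
    exact hN2.1 i b (fun j => ⟨hz2 j, hN1 j⟩)
  · intro Y hY m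
    have h1 : ∀ᶠ z in (U : Filter ℕ), ∀ y ∈ Y, ∀ i, ∀ᶠ N in (U : Filter ℕ), y i ∉ V z N i := by
      rw [eventually_all_finset]
      intro y hy
      rw [eventually_all]
      intro i
      have h2 := hY y hy i
      rw [mem_limSub, ← Ultrafilter.eventually_not] at h2
      filter_upwards [h2] with z hz
      rw [mem_limSub, ← Ultrafilter.eventually_not] at hz
      exact hz
    have h2 : ∀ᶠ z in (U : Filter ℕ), ∀ y ∈ Y, ∀ i, y i ∈ F z := by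
      rw [eventually_all_finset]
      intro y hy
      rw [eventually_all]
      intro i
      exact hFe (y i)
    obtain ⟨z, hz1, hz2, hz3⟩ := (h1.and (h2.and ((eventually_ge_atTop m).filter_mono hUat))).exists
    refine ⟨W z, S z, hW0 z, fun d hd hd0 => hWd z d hd0 (by omega), fun A => ?_⟩
    have h3 : ∀ᶠ N in (U : Filter ℕ), ∀ y ∈ Y, ∀ i, y i ∉ V z N i := by
      rw [eventually_all_finset]
      intro y hy
      rw [eventually_all]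
      intro i
      exact hz1 y hy i
    obtain ⟨N, hN1, hN2, hN3⟩ := (h3.and (((hV z).filter_mono hUat).and ((eventually_ge_atTop A).filter_mono hUat))).exists
    refine ⟨N, hN3, hN2.2.trans ?_⟩
    apply mul_le_mul_of_nonneg_left _ (pow_nonneg (Real.log_natCast_nonneg N) B)
    norm_cast
    apply card_le_card
    intro n hn
    rw [mem_filter] at hn ⊢
    refine ⟨hn.1, hn.2.1, fun p hp hpp => ⟨(hn.2.2 p hp hpp).1, fun l hl hlW hld y hy => ?_⟩⟩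
    obtain ⟨i, hi⟩ := (hn.2.2 p hp hpp).2 l hl hlW hld
    exact ⟨i, fun h => hN1 y hy i ((hi (y i) (hz2 y hy i)).1 h)⟩

end Pool.Agent.Run7.h166.SP
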