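import Pool.Agent.Y882.Wts
import Pool.Agent.H442R2.KF.Bv

/-!
Primes `p` in a residue class modulo `W` such that all prime factors of `p - 1` which do not divide `W` are larger
than `N ^ 0.24`: linear sieve and theorem of Bombieri and Vinogradov.
-/

set_option autoImplicit false

namespace Pool.Agent.Run7.h166.SP

open Finset Filter
open Pool.Agent.H442R2.KF (piN piAP Er bv)
open Pool.Agent.Y882 (wts sgs)

theorem piN_ge (x : ℕ) (hx : 3 ≤ x) : (x : ℝ) ≤ 5 * (piN x : ℝ) * Real.log x := by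
  have h1 := Chebyshev.psi_ge x
  have h2 := Chebyshev.psi_le_primeCounting_mul_log x
  have h3 : (piN x : ℝ) = (Nat.primeCounting x : ℝ) := by
    congr 1
    unfold piN
    rw [Nat.primeCounting, Nat.primeCounting', Nat.count_eq_card_filter_range]
    congr 1
    ext p
    simp only [Finset.mem_filter, Finset.mem_Icc, Finset.mem_range]
    constructor
    · rintro ⟨⟨h1, h2⟩, h3⟩; exact ⟨by omega, h3⟩
    · rintro ⟨h1, h3⟩; exact ⟨⟨h3.one_le, by omega⟩, h3⟩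
  rw [h3]
  have hlog2 : 0.6931471803 < Real.log 2 := Real.log_two_gt_d9
  have hx' : (3 : ℝ) ≤ x := by exact_mod_cast hx
  have h4 : Real.log ((x : ℝ) + 1) ≤ Real.log 4 + ((x : ℝ) + 1) / 4 - 1 := by
    have h5 : Real.log (((x : ℝ) + 1) / 4) ≤ ((x : ℝ) + 1) / 4 - 1 :=
      Real.log_le_sub_one_of_pos (by positivity)
    have h6 : Real.log (((x : ℝ) + 1) / 4) = Real.log ((x : ℝ) + 1) - Real.log 4 :=
      Real.log_div (by positivity) (by norm_num)
    linarith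
  have hlog4 : Real.log 4 = 2 * Real.log 2 := by
    rw [show (4 : ℝ) = 2 ^ 2 by norm_num, Real.log_pow]; norm_num
  have hlog2' : Real.log 2 < 0.6931471808 := Real.log_two_lt_d9
  nlinarith

theorem one_le_sgs (n : ℕ) : 1 ≤ sgs n := by
  unfold sgs
  have h1 : ∀ p ∈ n.primeFactors.erase 2, (1 : ℝ) ≤ ((p : ℝ) - 1) / ((p : ℝ) - 2) := by
    intro p hp
    rw [mem_erase] at hp
    have h2 := (Nat.prime_of_mem_primeFactors hp.2).two_le
    have h3 : (3 : ℝ) ≤ p := by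
      have : 3 ≤ p := by omega
      exact_mod_cast this
    rw [le_div_iff₀ (by linarith)]
    linarith
  calc (1 : ℝ) = ∏ p ∈ n.primeFactors.erase 2, (1 : ℝ) := by simp
    _ ≤ _ := Finset.prod_le_prod (fun _ _ => zero_le_one) h1

/-- residues for the moduli `W d` -/
theorem residues (W : ℕ) (hW : 0 < W) (c : ℕ) (hc : c.Coprime W) : ∃ a : ℕ → ℕ,
    (∀ m, 1 ≤ m → (a m).Coprime m) ∧
    ∀ d, 0 < d → W.Coprime d → ∀ p, p ≡ a (W * d) [MOD (W * d)] ↔ p ≡ c [MOD W] ∧ p ≡ 1 [MOD d] := by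
  classical
  have h : ∀ m : ℕ, ∃ a : ℕ, (1 ≤ m → a.Coprime m) ∧
      ∀ d, 0 < d → W.Coprime d → m = W * d → a ≡ c [MOD W] ∧ a ≡ 1 [MOD d] := by
    intro m
    by_cases hm : ∃ d, 0 < d ∧ W.Coprime d ∧ m = W * d
    · obtain ⟨d, hd0, hWd, rfl⟩ := hm
      obtain ⟨a, ha1, ha2⟩ := Nat.chineseRemainder hWd c 1
      refine ⟨a, fun _ => ?_, ?_⟩
      · apply Nat.Coprime.mul_right
        · have h1 : Nat.gcd a W = Nat.gcd c W := Nat.ModEq.gcd_eq ha1
          exact h1.trans hc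
        · have h1 : Nat.gcd a d = Nat.gcd 1 d := Nat.ModEq.gcd_eq ha2
          exact h1.trans (Nat.gcd_one_left d)
      · intro d' hd' hWd' h2
        have : d = d' := Nat.eq_of_mul_eq_mul_left hW h2
        subst this
        exact ⟨ha1, ha2⟩
    · exact ⟨1, fun _ => Nat.coprime_one_left m, fun d hd hWd h2 => absurd ⟨d, hd, hWd, h2⟩ hm⟩
  choose a ha using h
  refine ⟨a, fun m hm => (ha m).1 hm, fun d hd hWd p => ?_⟩
  obtain ⟨h1, h2⟩ := (ha (W * d)).2 d hd hWd rfl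
  rw [← Nat.modEq_and_modEq_iff_modEq_mul hWd]
  constructor
  · rintro ⟨h3, h4⟩
    exact ⟨h3.trans h1, h4.trans h2⟩
  · rintro ⟨h3, h4⟩
    exact ⟨h3.trans h1.symm, h4.trans h2.symm⟩

open Classical in
/-- the sieve inequality for one prime -/
theorem one_prime (W n : ℕ) (hn : n ≠ 0) (z : ℝ) (w : ℕ → ℝ) (D : ℕ)
    (w2 : ∀ d, w d ≠ 0 → Squarefree d ∧ d ≤ D)
    (w3 : ∀ N : ℕ, N ≠ 0 → ∑ d ∈ N.divisors, w d ≤ if ∀ p : ℕ, p.Prime → p ∣ N → z ≤ p then 1 else 0) :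
    ∑ d ∈ ((Icc 1 D).filter (fun d => Nat.Coprime W d)).filter (fun d => d ∣ n), w d ≤
      if ∀ l : ℕ, l.Prime → ¬ l ∣ W → l ∣ n → z ≤ l then 1 else 0 := by
  obtain ⟨s, hs⟩ : ∃ s : Finset ℕ, s = n.primeFactors.filter (fun l => ¬ l ∣ W) := ⟨_, rfl⟩
  have hsp : ∀ l ∈ s, l.Prime := by
    intro l hl
    rw [hs, mem_filter] at hl
    exact Nat.prime_of_mem_primeFactors hl.1
  obtain ⟨M, hM⟩ : ∃ M : ℕ, M = ∏ l ∈ s, l := ⟨_, rfl⟩
  have hM0 : M ≠ 0 := by
    rw [hM, prod_ne_zero_iff]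
    intro l hl
    exact (hsp l hl).ne_zero
  have hMpf : M.primeFactors = s := by
    rw [hM]
    exact Nat.primeFactors_prod hsp
  have hdM : ∀ l : ℕ, l.Prime → (l ∣ M ↔ l ∣ n ∧ ¬ l ∣ W) := by
    intro l hl
    have h1 : l ∣ M ↔ l ∈ M.primeFactors := by
      rw [Nat.mem_primeFactors]
      exact ⟨fun h => ⟨hl, h, hM0⟩, fun h => h.2.1⟩
    rw [h1, hMpf, hs, mem_filter, Nat.mem_primeFactors]
    exact ⟨fun h => ⟨h.1.2.1, h.2⟩, fun h => ⟨⟨hl, h.1, hn⟩, h.2⟩⟩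
  have hset : (((Icc 1 D).filter (fun d => Nat.Coprime W d)).filter (fun d => d ∣ n)).filter (fun d => w d ≠ 0) =
      M.divisors.filter (fun d => w d ≠ 0) := by
    ext d
    simp only [mem_filter, mem_Icc, Nat.mem_divisors]
    constructor
    · rintro ⟨⟨⟨⟨h1, h2⟩, h3⟩, h4⟩, h5⟩
      refine ⟨⟨?_, hM0⟩, h5⟩
      rw [← Nat.prod_primeFactors_of_squarefree (w2 d h5).1, hM]
      apply Finset.prod_dvd_prod_of_subset
      intro l hl
      rw [Nat.mem_primeFactors] at hl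
      rw [hs, mem_filter, Nat.mem_primeFactors]
      refine ⟨⟨hl.1, hl.2.1.trans h4, hn⟩, fun hlW => ?_⟩
      have := Nat.dvd_gcd hlW hl.2.1
      rw [Nat.coprime_iff_gcd_eq_one.1 h3] at this
      exact hl.1.one_lt.ne' (Nat.dvd_one.1 this)
    · rintro ⟨⟨h1, -⟩, h5⟩
      obtain ⟨h6, h7⟩ := w2 d h5
      refine ⟨⟨⟨⟨Nat.pos_of_ne_zero h6.ne_zero, h7⟩, ?_⟩, ?_⟩, h5⟩
      · rw [Nat.coprime_iff_gcd_eq_one]
        by_contra hne
        obtain ⟨q, hq, hqd⟩ := Nat.exists_prime_and_dvd hne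
        exact ((hdM q hq).1 ((hqd.trans (Nat.gcd_dvd_right _ _)).trans h1)).2 (hqd.trans (Nat.gcd_dvd_left _ _))
      · rw [← Nat.prod_primeFactors_of_squarefree h6]
        apply Finset.prod_primes_dvd n (fun q hq => (Nat.prime_of_mem_primeFactors hq).prime)
        intro q hq
        exact ((hdM q (Nat.prime_of_mem_primeFactors hq)).1 ((Nat.dvd_of_mem_primeFactors hq).trans h1)).1
  have h1 : ∑ d ∈ ((Icc 1 D).filter (fun d => Nat.Coprime W d)).filter (fun d => d ∣ n), w d =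
      ∑ d ∈ M.divisors, w d := by
    rw [← sum_filter_ne_zero, hset, sum_filter_ne_zero]
  rw [h1]
  refine (w3 M hM0).trans (le_of_eq ?_)
  have h2 : (∀ p : ℕ, p.Prime → p ∣ M → z ≤ p) ↔ ∀ l : ℕ, l.Prime → ¬ l ∣ W → l ∣ n → z ≤ l := by
    constructor
    · intro h l hl hlW hln
      exact h l hl ((hdM l hl).2 ⟨hln, hlW⟩)
    · intro h l hl hlM
      obtain ⟨h3, h4⟩ := (hdM l hl).1 hlM
      exact h l hl h4 h3
  by_cases h3 : ∀ p : ℕ, p.Prime → p ∣ M → z ≤ p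
  · rw [if_pos h3, if_pos (h2.1 h3)]
  · rw [if_neg h3, if_neg (fun h => h3 (h2.2 h))]

open Classical in
/-- **the primes `p` for which `p - 1` has no small prime factors outside `W`** -/
theorem rough (W : ℕ) (hW : 0 < W) (h2 : 2 ∣ W) (c : ℕ) (hc : c.Coprime W) : ∃ κ : ℝ, 0 < κ ∧
    ∀ᶠ N : ℕ in atTop, κ * (N / Real.log N ^ 2) ≤ #{p ∈ Icc 1 N | p.Prime ∧ p ≡ c [MOD W] ∧
      ∀ l : ℕ, l.Prime → ¬ l ∣ W → l ∣ p - 1 → (N : ℝ) ^ (0.24 : ℝ) ≤ l} := by
  obtain ⟨c0, hc0, Y0, HW⟩ := wts 0.485 0.24 0.49 (by norm_num) (by norm_num) (by norm_num) (by norm_num)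
    (by norm_num)
  obtain ⟨C, hC, hbv⟩ := bv 0.495 (by norm_num) 4
  obtain ⟨a, ha1, ha2⟩ := residues W hW c hc
  have hφ : (0 : ℝ) < Nat.totient W := by exact_mod_cast Nat.totient_pos.2 hW
  obtain ⟨κ, hκ⟩ : ∃ κ : ℝ, κ = c0 / (10 * Nat.totient W) := ⟨_, rfl⟩
  have hκ0 : 0 < κ := by rw [hκ]; positivity
  refine ⟨κ, hκ0, ?_⟩
  have ev1 : ∀ᶠ N : ℕ in atTop, (W : ℝ) ≤ (N : ℝ) ^ (0.005 : ℝ) :=
    tendsto_natCast_atTop_atTop.eventually ((tendsto_rpow_atTop (by norm_num)).eventually_ge_atTop _)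
  have ev2 : ∀ᶠ N : ℕ in atTop, 5 * C / κ ≤ Real.log N :=
    (Real.tendsto_log_atTop.comp tendsto_natCast_atTop_atTop).eventually_ge_atTop _
  filter_upwards [ev1, ev2, eventually_ge_atTop Y0, eventually_ge_atTop (W + 3)] with N hN1 hN2 hNY hNW
  obtain ⟨w, w1, w2, w3, w4⟩ := HW N hNY
  have hNr : (3 : ℝ) ≤ N := by exact_mod_cast (show 3 ≤ N by omega)
  have hL0 : 0 < Real.log N := Real.log_pos (by linarith)
  obtain ⟨D, hD⟩ : ∃ D : ℕ, D = ⌊(N : ℝ) ^ (0.49 : ℝ)⌋₊ := ⟨_, rfl⟩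
  have w2' : ∀ d, w d ≠ 0 → Squarefree d ∧ d ≤ D := by
    intro d hd
    obtain ⟨h1, h3⟩ := w2 d hd
    refine ⟨h1, ?_⟩
    rw [hD]
    exact Nat.le_floor h3
  obtain ⟨E, hE⟩ : ∃ E : Finset ℕ, E = (Icc 1 D).filter (fun d => Nat.Coprime W d) := ⟨_, rfl⟩
  have hEm : ∀ d ∈ E, 0 < d ∧ d ≤ D ∧ W.Coprime d := by
    intro d hd
    rw [hE, mem_filter, mem_Icc] at hd
    exact ⟨hd.1.1, hd.1.2, hd.2⟩
  have h4 := w4 W hW (by omega) (even_iff_two_dvd.2 h2)
  rw [← hD] at h4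
  have h4' : c0 / Real.log N ≤ ∑ d ∈ E, w d * (1 / (Nat.totient d : ℝ)) := by
    rw [hE]
    refine le_trans ?_ h4
    have h5 := one_le_sgs W
    have h6 : 0 < c0 / Real.log N := by positivity
    nlinarith
  obtain ⟨Pc, hPc⟩ : ∃ Pc : Finset ℕ, Pc = (Icc 1 N).filter (fun p => p.Prime ∧ p ≡ c [MOD W]) := ⟨_, rfl⟩
  -- the sieve
  have hs1 : ∑ p ∈ Pc, ∑ d ∈ E.filter (fun d => d ∣ p - 1), w d ≤
      (#{p ∈ Icc 1 N | p.Prime ∧ p ≡ c [MOD W] ∧
      ∀ l : ℕ, l.Prime → ¬ l ∣ W → l ∣ p - 1 → (N : ℝ) ^ (0.24 : ℝ) ≤ l} : ℝ) := by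
    calc ∑ p ∈ Pc, ∑ d ∈ E.filter (fun d => d ∣ p - 1), w d
        ≤ ∑ p ∈ Pc, (if ∀ l : ℕ, l.Prime → ¬ l ∣ W → l ∣ p - 1 → (N : ℝ) ^ (0.24 : ℝ) ≤ l then (1 : ℝ) else 0) := by
          apply sum_le_sum
          intro p hp
          rw [hPc, mem_filter] at hp
          have hp2 := hp.2.1.two_le
          rw [hE]
          exact one_prime W (p - 1) (by omega) _ w D w2' w3
      _ = _ := by
          rw [← sum_filter, sum_const, nsmul_eq_mul, mul_one, hPc, filter_filter]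
          congr 2
          apply filter_congr
          intro p _
          rw [and_assoc]
  have hs2 : ∑ p ∈ Pc, ∑ d ∈ E.filter (fun d => d ∣ p - 1), w d =
      ∑ d ∈ E, w d * (piAP N (W * d) (a (W * d)) : ℝ) := by
    simp only [sum_filter]
    rw [sum_comm]
    apply sum_congr rfl
    intro d hd
    obtain ⟨hd0, hdD, hWd⟩ := hEm d hd
    rw [← sum_filter, sum_const, nsmul_eq_mul, mul_comm]
    congr 2
    unfold piAP
    rw [hPc, filter_filter]
    congr 1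
    apply filter_congr
    intro p hp
    rw [ha2 d hd0 hWd p]
    constructor
    · rintro ⟨⟨h5, h6⟩, h7⟩
      exact ⟨h5, h6, ((Nat.modEq_iff_dvd' h5.one_lt.le).2 h7).symm⟩
    · rintro ⟨h5, h6, h7⟩
      exact ⟨⟨h5, h6⟩, (Nat.modEq_iff_dvd' h5.one_lt.le).1 h7.symm⟩
  -- the main term
  have hm : ∑ d ∈ E, w d * (piAP N (W * d) (a (W * d)) : ℝ) =
      (piN N : ℝ) / Nat.totient W * ∑ d ∈ E, w d * (1 / (Nat.totient d : ℝ)) +
        ∑ d ∈ E, w d * Er N (W * d) (a (W * d)) := by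
    rw [mul_sum, ← sum_add_distrib]
    apply sum_congr rfl
    intro d hd
    obtain ⟨hd0, hdD, hWd⟩ := hEm d hd
    have hφd : (0 : ℝ) < Nat.totient d := by exact_mod_cast Nat.totient_pos.2 hd0
    unfold Er
    rw [Nat.totient_mul hWd]
    push_cast
    field_simp
    ring
  -- the error term
  have he : |∑ d ∈ E, w d * Er N (W * d) (a (W * d))| ≤ 5 * Real.log N * (C * (N / Real.log N ^ 4)) := by
    calc |∑ d ∈ E, w d * Er N (W * d) (a (W * d))|
        ≤ ∑ d ∈ E, |w d * Er N (W * d) (a (W * d))| := abs_sum_le_sum_abs _ _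
      _ ≤ ∑ d ∈ E, 5 * Real.log N * |Er N (W * d) (a (W * d))| := by
          apply sum_le_sum
          intro d _
          rw [abs_mul]
          exact mul_le_mul_of_nonneg_right (w1 d) (abs_nonneg _)
      _ = 5 * Real.log N * ∑ d ∈ E, |Er N (W * d) (a (W * d))| := by rw [mul_sum]
      _ = 5 * Real.log N * ∑ m ∈ E.image (fun d => W * d), |Er N m (a m)| := by
          rw [sum_image]
          intro d _ d' _ h
          exact Nat.eq_of_mul_eq_mul_left hW h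
      _ ≤ 5 * Real.log N * ∑ m ∈ Icc 1 ⌊(N : ℝ) ^ (0.495 : ℝ)⌋₊, |Er N m (a m)| := by
          apply mul_le_mul_of_nonneg_left _ (by positivity)
          apply sum_le_sum_of_subset_of_nonneg
          · intro m hm
            rw [mem_image] at hm
            obtain ⟨d, hd, rfl⟩ := hm
            obtain ⟨hd0, hdD, hWd⟩ := hEm d hd
            rw [mem_Icc]
            refine ⟨Nat.mul_pos hW hd0, Nat.le_floor ?_⟩
            have h5 : (d : ℝ) ≤ (N : ℝ) ^ (0.49 : ℝ) := by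
              rw [hD] at hdD
              exact (Nat.le_floor_iff (by positivity)).1 hdD
            push_cast
            calc (W : ℝ) * d ≤ (N : ℝ) ^ (0.005 : ℝ) * (N : ℝ) ^ (0.49 : ℝ) := by gcongr
              _ = (N : ℝ) ^ (0.495 : ℝ) := by
                rw [← Real.rpow_add (by linarith)]
                norm_num
          · intro m _ _
            exact abs_nonneg _
      _ ≤ 5 * Real.log N * (C * (N / Real.log N ^ 4)) := by
          apply mul_le_mul_of_nonneg_left _ (by positivity)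
          exact hbv N (by omega) a ha1
  have hpi := piN_ge N (by omega)
  have hmain : 2 * κ * (N / Real.log N ^ 2) ≤
      (piN N : ℝ) / Nat.totient W * ∑ d ∈ E, w d * (1 / (Nat.totient d : ℝ)) := by
    have h5 : (N : ℝ) / (5 * Real.log N) ≤ piN N := by
      rw [div_le_iff₀ (by positivity)]
      linarith
    calc 2 * κ * (N / Real.log N ^ 2) = (N / (5 * Real.log N)) / Nat.totient W * (c0 / Real.log N) := by
          rw [hκ]
          field_simp
          ring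
      _ ≤ (piN N : ℝ) / Nat.totient W * (c0 / Real.log N) := by
          apply mul_le_mul_of_nonneg_right _ (by positivity)
          exact div_le_div_of_nonneg_right h5 hφ.le
      _ ≤ _ := mul_le_mul_of_nonneg_left h4' (by positivity)
  have herr : 5 * Real.log N * (C * (N / Real.log N ^ 4)) ≤ κ * (N / Real.log N ^ 2) := by
    have h5 : 5 * C ≤ κ * Real.log N := by
      rw [div_le_iff₀ hκ0] at hN2
      linarith
    have h6 : 5 * Real.log N * (C * (N / Real.log N ^ 4)) = 5 * C * (N / Real.log N ^ 3) := by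
      field_simp
    have h7 : κ * (N / Real.log N ^ 2) = κ * Real.log N * (N / Real.log N ^ 3) := by
      field_simp
    rw [h6, h7]
    exact mul_le_mul_of_nonneg_right h5 (by positivity)
  have h8 := (abs_le.1 he).1
  rw [hs2, hm] at hs1
  linarith

end Pool.Agent.Run7.h166.SP
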