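import Pool.Agent.Run7.h166.SP.Sign
import Pool.Agent.Run7.h166.SP.Sieve
import Pool.Agent.Run7.h166.SP.Four

/-!
Simultaneous primitive roots outside four groups of rank at most three.
-/

set_option autoImplicit false

namespace Pool.Agent.Run7.h166.SP

open Finset Filter
open Pool.Agent.R498.MX (Qs Qs_mem)

/-- the passage to the limit -/
theorem limit_abs (K M : ℕ) (F : ℕ → Finset ℚˣ) (hF : ∀ w : ℚˣ, ∀ᶠ z in atTop, w ∈ F z)
    (P : ℕ → ℕ → (Fin M → Subgroup ℚˣ) → Prop)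
    (h : ∀ z, ∀ᶠ N : ℕ in atTop, ∃ V : Fin M → Subgroup ℚˣ, (∀ i, NoInd K {w | w ∈ F z ∧ w ∈ V i}) ∧ P z N V) :
    ∃ V : Fin M → Subgroup ℚˣ, (∀ i, NoInd K (V i : Set ℚˣ)) ∧
    ∀ Y : Finset ℚˣ, (∀ y ∈ Y, ∀ i, y ∉ V i) → ∀ m : ℕ, ∃ z ≥ m, (∀ y ∈ Y, y ∈ F z) ∧
      ∀ A : ℕ, ∃ N ≥ A, ∃ V' : Fin M → Subgroup ℚˣ, P z N V' ∧ ∀ y ∈ Y, ∀ i, y ∉ V' i := by
  obtain ⟨V, hV⟩ : ∃ V : ℕ → ℕ → Fin M → Subgroup ℚˣ, ∀ z, ∀ᶠ N : ℕ in atTop,
      (∀ i, NoInd K {w | w ∈ F z ∧ w ∈ V z N i}) ∧ P z N (V z N) := by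
    classical
    have h1 : ∀ z N : ℕ, ∃ V : Fin M → Subgroup ℚˣ, (∃ V : Fin M → Subgroup ℚˣ,
        (∀ i, NoInd K {w | w ∈ F z ∧ w ∈ V i}) ∧ P z N V) →
        (∀ i, NoInd K {w | w ∈ F z ∧ w ∈ V i}) ∧ P z N V := by
      intro z N
      by_cases h : ∃ V : Fin M → Subgroup ℚˣ, (∀ i, NoInd K {w | w ∈ F z ∧ w ∈ V i}) ∧ P z N V
      · obtain ⟨V, hV⟩ := h
        exact ⟨V, fun _ => hV⟩
      · exact ⟨fun _ => ⊥, fun h' => absurd h' h⟩
    choose V hV using h1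
    refine ⟨V, fun z => ?_⟩
    filter_upwards [h z] with N hN using hV z N hN
  obtain ⟨U, hU⟩ : ∃ U : Ultrafilter ℕ, U = hyperfilter ℕ := ⟨_, rfl⟩
  have hUat : (U : Filter ℕ) ≤ atTop := by
    rw [hU]
    exact Nat.hyperfilter_le_atTop
  refine ⟨fun i => limSub U (fun z => limSub U (fun N => V z N i)), ?_, ?_⟩
  · intro i b hb
    have h1 : ∀ j, ∀ᶠ z in (U : Filter ℕ), ∀ᶠ N in (U : Filter ℕ), b j ∈ V z N i := fun j => hb j
    obtain ⟨z, hz1, hz2⟩ := ((eventually_all.2 h1).and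
      (eventually_all.2 (fun j => (hF (b j)).filter_mono hUat))).exists
    obtain ⟨N, hN1, hN2⟩ := ((eventually_all.2 hz1).and ((hV z).filter_mono hUat)).exists
    exact hN2.1 i b (fun j => ⟨hz2 j, hN1 j⟩)
  · intro Y hY m
    have h1 : ∀ᶠ z in (U : Filter ℕ), ∀ y ∈ Y, ∀ i, ∀ᶠ N in (U : Filter ℕ), y ∉ V z N i := by
      rw [eventually_all_finset]
      intro y hy
      rw [eventually_all]
      intro i
      have h2 := hY y hy i
      rw [mem_limSub, ← Ultrafilter.eventually_not] at h2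
      filter_upwards [h2] with z hz
      rw [mem_limSub, ← Ultrafilter.eventually_not] at hz
      exact hz
    have h2 : ∀ᶠ z in (U : Filter ℕ), ∀ y ∈ Y, y ∈ F z := by
      rw [eventually_all_finset]
      intro y _
      exact (hF y).filter_mono hUat
    obtain ⟨z, hz1, hz2, hz3⟩ := (h1.and (h2.and ((eventually_ge_atTop m).filter_mono hUat))).exists
    refine ⟨z, hz3, hz2, fun A => ?_⟩
    have h3 : ∀ᶠ N in (U : Filter ℕ), ∀ y ∈ Y, ∀ i, y ∉ V z N i := by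
      rw [eventually_all_finset]
      intro y hy
      rw [eventually_all]
      intro i
      exact hz1 y hy i
    obtain ⟨N, hN1, hN2, hN3⟩ := (h3.and (((hV z).filter_mono hUat).and
      ((eventually_ge_atTop A).filter_mono hUat))).exists
    exact ⟨N, hN3, V z N, hN2.2, hN1⟩

open Classical in
/-- **one level** -/
theorem levelE (W : ℕ) (hW : 0 < W) (h2W : 2 ∣ W) (c : ℕ) (hc : c.Coprime W) (F : Finset ℚˣ) :
    ∃ κ : ℝ, 0 < κ ∧ ∀ᶠ N : ℕ in atTop, ∃ V : Fin 4 → Subgroup ℚˣ,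
      (∀ i, NoInd 4 {w | w ∈ F ∧ w ∈ V i}) ∧
      κ * (N / Real.log N ^ 2) ≤ #{p ∈ Icc 1 N | p.Prime ∧ p ≡ c [MOD W] ∧ ∀ hp : p.Prime,
        ∀ l : ℕ, l.Prime → ¬ l ∣ W → l ∣ p - 1 →
          ∃ i, ∀ w ∈ F, w ∈ Qs p hp ((p - 1) / l) ↔ w ∈ V i} := by
  obtain ⟨κ₀, hκ₀, hrough⟩ := rough W hW h2W c hc
  obtain ⟨C, H, hC, hfew⟩ := few_four F
  obtain ⟨Q, hQ⟩ : ∃ Q : ℕ, Q = (2 ^ F.card) ^ 4 := ⟨_, rfl⟩
  have hQ0 : (0 : ℝ) < Q := by
    rw [hQ]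
    positivity
  refine ⟨κ₀ / (2 * Q), by positivity, ?_⟩
  have ev1 := Pool.Agent.R498.MX.pow_log_small 0.05 ((C + H + 1) * 2 / κ₀) 2 (by norm_num) (by positivity)
  filter_upwards [hrough, ev1, eventually_ge_atTop 3] with N hN hN1 hN3
  have hNr : (3 : ℝ) ≤ N := by exact_mod_cast hN3
  have hL0 : 0 < Real.log N := Real.log_pos (by linarith)
  obtain ⟨T, hT⟩ : ∃ T : Finset ℕ, T = (Icc 1 N).filter (fun p => p.Prime ∧ p ≡ c [MOD W] ∧
      ∀ l : ℕ, l.Prime → ¬ l ∣ W → l ∣ p - 1 → (N : ℝ) ^ (0.24 : ℝ) ≤ l) := ⟨_, rfl⟩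
  rw [← hT] at hN
  obtain ⟨Bs, hB1, hB2⟩ := hfew N (by omega)
  obtain ⟨T', hT'⟩ : ∃ T', T' = T.filter (fun p => H < p ∧ p ∉ Bs) := ⟨_, rfl⟩
  have hT'c : κ₀ / 2 * (N / Real.log N ^ 2) ≤ T'.card := by
    have h1 : T ⊆ T' ∪ (Bs ∪ range (H + 1)) := by
      intro p hp
      rw [mem_union, mem_union, mem_range]
      by_cases h2 : H < p ∧ p ∉ Bs
      · left
        rw [hT', mem_filter]
        exact ⟨hp, h2⟩
      · right
        by_cases h3 : p ∈ Bs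
        · exact Or.inl h3
        · right
          by_contra h4
          exact h2 ⟨by omega, h3⟩
    have h2 : (T.card : ℝ) ≤ T'.card + (Bs.card + (H + 1)) := by
      have h3 := (card_le_card h1).trans ((card_union_le _ _).trans
        (Nat.add_le_add_left (card_union_le _ _) _))
      rw [card_range] at h3
      exact_mod_cast h3
    have h5 : (1 : ℝ) ≤ (N : ℝ) ^ (0.95 : ℝ) := Real.one_le_rpow (by linarith) (by norm_num)
    have h6 : (Bs.card : ℝ) + (H + 1) ≤ (C + H + 1) * (N : ℝ) ^ (0.95 : ℝ) := by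
      have h7 : (0 : ℝ) ≤ H := Nat.cast_nonneg _
      nlinarith
    have h7 : (C + H + 1) * (N : ℝ) ^ (0.95 : ℝ) ≤ κ₀ / 2 * (N / Real.log N ^ 2) := by
      have h8 : (C + H + 1) * 2 / κ₀ * Real.log N ^ 2 * (N : ℝ) ^ (0.95 : ℝ) ≤ N := by
        calc (C + H + 1) * 2 / κ₀ * Real.log N ^ 2 * (N : ℝ) ^ (0.95 : ℝ)
            ≤ (N : ℝ) ^ (0.05 : ℝ) * (N : ℝ) ^ (0.95 : ℝ) := by gcongr
          _ = (N : ℝ) ^ (1 : ℝ) := by
            rw [← Real.rpow_add (by linarith)]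
            norm_num
          _ = N := Real.rpow_one _
      calc (C + H + 1) * (N : ℝ) ^ (0.95 : ℝ) =
            κ₀ / 2 * (((C + H + 1) * 2 / κ₀ * Real.log N ^ 2 * (N : ℝ) ^ (0.95 : ℝ)) / Real.log N ^ 2) := by
            field_simp
        _ ≤ κ₀ / 2 * (N / Real.log N ^ 2) := by gcongr
    linarith
  have hT'0 : 0 < (T'.card : ℝ) := lt_of_lt_of_le (by positivity) hT'c
  -- the groups of a prime
  obtain ⟨𝔹, h𝔹⟩ : ∃ 𝔹 : ℕ → Finset (Subgroup ℚˣ), 𝔹 = fun p =>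
    ((p - 1).primeFactors.filter (fun l => ¬ l ∣ W)).image (fun l => QQ p l) := ⟨_, rfl⟩
  have hTm : ∀ p ∈ T', (1 ≤ p ∧ p ≤ N) ∧ p.Prime ∧ p ≡ c [MOD W] ∧
      (∀ l : ℕ, l.Prime → ¬ l ∣ W → l ∣ p - 1 → (N : ℝ) ^ (0.24 : ℝ) ≤ l) ∧ H < p ∧ p ∉ Bs := by
    intro p hp
    rw [hT', mem_filter, hT, mem_filter, mem_Icc] at hp
    exact ⟨hp.1.1, hp.1.2.1, hp.1.2.2.1, hp.1.2.2.2, hp.2.1, hp.2.2⟩
  have h𝔹c : ∀ p ∈ T', (𝔹 p).card ≤ 4 := by
    intro p hp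
    obtain ⟨g1, g2, g3, g4, g5, g6⟩ := hTm p hp
    have := g2.two_le
    rw [h𝔹]
    refine card_image_le.trans (le_trans (card_le_card ?_) (four_large N (by omega) (p - 1) (by omega) (by omega)))
    intro l hl
    rw [mem_filter, Nat.mem_primeFactors] at hl
    rw [mem_filter, Nat.mem_primeFactors]
    exact ⟨hl.1, g4 l hl.1.1 hl.2 hl.1.2.1⟩
  have hVn : ∀ p, ∃ V : Fin 4 → Subgroup ℚˣ, p ∈ T' →
      (∀ G ∈ 𝔹 p, ∃ i, V i = G) ∧ ∀ i, V i ∈ 𝔹 p ∨ V i = ⊥ := by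
    intro n
    by_cases hn : n ∈ T'
    · obtain ⟨V, hV⟩ := as_list 4 (𝔹 n) (h𝔹c n hn)
      exact ⟨V, fun _ => hV⟩
    · exact ⟨fun _ => ⊥, fun h => absurd h hn⟩
  choose Vn hVn using hVn
  -- pigeonhole
  obtain ⟨f, hf⟩ : ∃ f : ℕ → Fin 4 → Finset ℚˣ, f = fun n i => F.filter (fun w => w ∈ Vn n i) := ⟨_, rfl⟩
  obtain ⟨y, -, hy⟩ := Finset.exists_le_card_fiber_of_nsmul_le_card_of_maps_to
    (s := T') (t := Fintype.piFinset (fun _ : Fin 4 => F.powerset)) (f := f) (b := (T'.card : ℝ) / Q)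
    (by
      intro n _
      rw [Fintype.mem_piFinset]
      intro i
      rw [mem_powerset, hf]
      exact filter_subset _ _)
    ⟨fun _ => ∅, by
      rw [Fintype.mem_piFinset]
      intro i
      rw [mem_powerset]
      exact empty_subset _⟩
    (by
      rw [Fintype.card_piFinset, prod_const, card_univ, Fintype.card_fin, card_powerset, ← hQ, nsmul_eq_mul,
        mul_div_cancel₀ _ hQ0.ne'])
  obtain ⟨Y, hY⟩ : ∃ Y, Y = T'.filter (fun n => f n = y) := ⟨_, rfl⟩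
  rw [← hY] at hy
  have hY0 : Y.Nonempty := by
    rw [← card_pos]
    have : (0 : ℝ) < Y.card := lt_of_lt_of_le (by positivity) hy
    exact_mod_cast this
  obtain ⟨n₀, hn₀⟩ := hY0
  rw [hY, mem_filter] at hn₀
  refine ⟨Vn n₀, ?_, ?_⟩
  · -- few independent elements
    intro i b hb hind
    rcases (hVn n₀ hn₀.1).2 i with h1 | h1
    · rw [h𝔹, mem_image] at h1
      obtain ⟨l, hl, h3⟩ := h1
      rw [mem_filter, Nat.mem_primeFactors] at hl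
      obtain ⟨g1, g2, g3, g4, g5, g6⟩ := hTm n₀ hn₀.1
      refine hB2 n₀ g2 g5 g1.2 g6 l hl.1.1 hl.1.2.1 (g4 l hl.1.1 hl.2 hl.1.2.1) b (fun j => ⟨(hb j).1, ?_⟩) hind
      rw [← QQ_eq, h3]
      exact (hb j).2
    · have hb1 : ∀ j, b j = 1 := by
        intro j
        have := (hb j).2
        rw [h1, Subgroup.mem_bot] at this
        exact this
      have := hind (fun _ => 1) (by
        apply prod_eq_one
        intro j _
        rw [hb1 j, one_zpow]) 0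
      exact one_ne_zero this
  · -- many primes
    obtain ⟨Z, hZ⟩ : ∃ Z : Finset ℕ, Z = (Icc 1 N).filter (fun p => p.Prime ∧ p ≡ c [MOD W] ∧
        ∀ hp : p.Prime, ∀ l : ℕ, l.Prime → ¬ l ∣ W → l ∣ p - 1 →
          ∃ i, ∀ w ∈ F, w ∈ Qs p hp ((p - 1) / l) ↔ w ∈ Vn n₀ i) := ⟨_, rfl⟩
    rw [← hZ]
    have hYZ : Y ⊆ Z := by
      intro p hp
      rw [hY, mem_filter] at hp
      obtain ⟨hpT', hfn⟩ := hp
      obtain ⟨g1, g2, g3, g4, g5, g6⟩ := hTm p hpT'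
      rw [hZ, mem_filter]
      refine ⟨mem_Icc.2 g1, g2, g3, fun hp l hl hlW hld => ?_⟩
      have h1 : QQ p l ∈ 𝔹 p := by
        rw [h𝔹, mem_image]
        refine ⟨l, mem_filter.2 ⟨Nat.mem_primeFactors.2 ⟨hl, hld, ?_⟩, hlW⟩, rfl⟩
        have := hp.two_le
        omega
      obtain ⟨i, hi⟩ := (hVn p hpT').1 _ h1
      refine ⟨i, fun w hw => ?_⟩
      rw [← QQ_eq, ← hi]
      have h2 : f p i = f n₀ i := by rw [hfn, hn₀.2]
      rw [hf] at h2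
      have h3 := Finset.ext_iff.1 h2 w
      simp only [mem_filter] at h3
      constructor
      · intro h4
        exact (h3.1 ⟨hw, h4⟩).2
      · intro h4
        exact (h3.2 ⟨hw, h4⟩).2
    have h1 : (Y.card : ℝ) ≤ Z.card := by exact_mod_cast card_le_card hYZ
    have h3 : (T'.card : ℝ) / Q ≤ Z.card := hy.trans h1
    calc κ₀ / (2 * Q) * (N / Real.log N ^ 2) = (κ₀ / 2 * (N / Real.log N ^ 2)) / Q := by
          field_simp
      _ ≤ (T'.card : ℝ) / Q := by gcongr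
      _ ≤ Z.card := h3

open Classical in
/-- **Simultaneous primitive roots in residue classes, outside four groups of rank at most three.** -/
theorem main1E (a : ℕ → ℕ) (ha : ∀ m, 0 < m → (a m).Coprime m)
    (hac : ∀ m n : ℕ, 0 < n → m ∣ n → a n ≡ a m [MOD m])
    (hal : ∀ l : ℕ, l.Prime → l ≠ 2 → ¬ a l ≡ 1 [MOD l]) :
    ∃ V : Fin 4 → Subgroup ℚˣ, (∀ i, NoInd 4 (V i : Set ℚˣ)) ∧
    ∀ F : Finset ℚˣ, (∀ w ∈ F, ∀ i, w ∉ V i) → ∀ m : ℕ, 0 < m → ∃ κ : ℝ, 0 < κ ∧ ∀ A : ℕ, ∃ N ≥ A,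
      κ * (N / Real.log N ^ 2) ≤ #{p ∈ Icc 1 N | p.Prime ∧ p ≡ a m [MOD m] ∧ m < p ∧
          ∀ w ∈ F, IsRoot (w : ℚ) p ↔ ¬ IsSquare ((((w : ℚ).num * (w : ℚ).den : ℤ)) : ZMod p)} := by
  have : Countable ℚˣ := Function.Injective.countable (f := fun w : ℚˣ => (w : ℚ)) Units.val_injective
  obtain ⟨g, hg⟩ := exists_surjective_nat ℚˣ
  obtain ⟨W, hW⟩ : ∃ W : ℕ → ℕ, W = fun z => (z + 2).factorial := ⟨_, rfl⟩
  obtain ⟨F, hF⟩ : ∃ F : ℕ → Finset ℚˣ, F = fun z => (range z).image g := ⟨_, rfl⟩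
  have hWd : ∀ z d, 0 < d → d ≤ z + 2 → d ∣ W z := by
    intro z d h1 h2
    rw [hW]
    exact Nat.dvd_factorial h1 h2
  have hW0 : ∀ z, 0 < W z := fun z => by rw [hW]; exact Nat.factorial_pos _
  have hFe : ∀ w : ℚˣ, ∀ᶠ z in atTop, w ∈ F z := by
    intro w
    obtain ⟨n, hn⟩ := hg w
    filter_upwards [eventually_gt_atTop n] with z hz
    rw [hF]
    exact mem_image.2 ⟨n, mem_range.2 hz, hn⟩
  have hl := fun z => levelE (W z) (hW0 z) (hWd z 2 (by norm_num) (by omega)) (a (W z)) (ha _ (hW0 z)) (F z)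
  choose κ hκ hS using hl
  obtain ⟨V, hV, hmain⟩ := limit_abs 4 4 F hFe (fun z N V =>
      κ z * (N / Real.log N ^ 2) ≤ #{p ∈ Icc 1 N | p.Prime ∧ p ≡ a (W z) [MOD (W z)] ∧ ∀ hp : p.Prime,
        ∀ l : ℕ, l.Prime → ¬ l ∣ (W z) → l ∣ p - 1 →
          ∃ i, ∀ w ∈ F z, w ∈ Qs p hp ((p - 1) / l) ↔ w ∈ V i}) hS
  refine ⟨V, hV, fun Y hY m hm => ?_⟩
  obtain ⟨z, hz, hzY, hzN⟩ := hmain Y hY m
  obtain ⟨H, hH⟩ := unit_of_large Y
  refine ⟨κ z / 2, by have := hκ z; positivity, fun A => ?_⟩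
  have ev1 := Pool.Agent.R498.MX.pow_log_small 1 ((H + m + 3) * 2 / κ z) 2 one_pos
    (by have := hκ z; positivity)
  obtain ⟨A₀, hA₀⟩ := eventually_atTop.1 ev1
  obtain ⟨N, hNA, V', hP, hYV⟩ := hzN (A + A₀ + 3)
  refine ⟨N, by omega, ?_⟩
  have hN1 := hA₀ N (by omega)
  rw [Real.rpow_one] at hN1
  have hNr : (3 : ℝ) ≤ N := by exact_mod_cast (show 3 ≤ N by omega)
  have hL0 : 0 < Real.log N := Real.log_pos (by linarith)
  obtain ⟨T, hT⟩ : ∃ T : Finset ℕ, T = (Icc 1 N).filter (fun p => p.Prime ∧ p ≡ a (W z) [MOD (W z)] ∧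
      ∀ hp : p.Prime, ∀ l : ℕ, l.Prime → ¬ l ∣ (W z) → l ∣ p - 1 →
          ∃ i, ∀ w ∈ F z, w ∈ Qs p hp ((p - 1) / l) ↔ w ∈ V' i) := ⟨_, rfl⟩
  obtain ⟨Z, hZ⟩ : ∃ Z : Finset ℕ, Z = (Icc 1 N).filter (fun p => p.Prime ∧ p ≡ a m [MOD m] ∧ m < p ∧
          ∀ w ∈ Y, IsRoot (w : ℚ) p ↔ ¬ IsSquare ((((w : ℚ).num * (w : ℚ).den : ℤ)) : ZMod p)) := ⟨_, rfl⟩
  have hP' : κ z * (N / Real.log N ^ 2) ≤ T.card := by
    rw [hT]
    exact hP
  rw [← hZ]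
  have hmW : m ∣ W z := hWd z m hm (by omega)
  have hTZ : T ⊆ Z ∪ range (H + m + 3) := by
    intro p hp
    rw [mem_union, mem_range]
    by_cases hpH : p < H + m + 3
    · exact Or.inr hpH
    left
    rw [hT, mem_filter] at hp
    obtain ⟨h1, hpp, h3, h4⟩ := hp
    rw [hZ, mem_filter]
    refine ⟨h1, hpp, (h3.of_dvd hmW).trans (hac m (W z) (hW0 z) hmW), by omega, fun w hw => ?_⟩
    have hwu : w ∈ Qs p hpp 0 := hH w hw p hpp (by omega)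
    refine ⟨square_of_root p hpp (by omega) w, fun hsq => ?_⟩
    rw [square_iff p hpp (by omega) w hwu] at hsq
    apply isRoot_of p hpp w hwu
    intro l hl hld
    by_cases hl2 : l = 2
    · rw [hl2]
      exact hsq
    by_cases hlW : l ∣ W z
    · exfalso
      apply hal l hl hl2
      have h5 : 1 ≡ p [MOD l] := (Nat.modEq_iff_dvd' hpp.one_lt.le).2 hld
      exact ((h3.of_dvd hlW).trans (hac l (W z) (hW0 z) hlW)).symm.trans h5.symm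
    · obtain ⟨i, hi⟩ := h4 hpp l hl hlW hld
      intro h5
      exact hYV w hw i ((hi w (hzY w hw)).1 h5)
  have h1 : (T.card : ℝ) ≤ Z.card + (H + m + 3) := by
    have h2 := (card_le_card hTZ).trans (card_union_le _ _)
    rw [card_range] at h2
    exact_mod_cast h2
  have hκz := hκ z
  have h2 : ((H : ℝ) + m + 3) ≤ κ z / 2 * (N / Real.log N ^ 2) := by
    calc ((H : ℝ) + m + 3) = κ z / 2 * (((H + m + 3) * 2 / κ z * Real.log N ^ 2) / Real.log N ^ 2) := by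
          field_simp
      _ ≤ κ z / 2 * (N / Real.log N ^ 2) := by gcongr
  linarith

open Classical in
/-- **Simultaneous primitive roots with a given multiplicative pattern, outside four groups of rank at most
three.** -/
theorem main2E (ε : ℚˣ →* ℤˣ) (hε : ε (Units.mk0 (-3) (by norm_num)) = -1) :
    ∃ V : Fin 4 → Subgroup ℚˣ, (∀ i, NoInd 4 (V i : Set ℚˣ)) ∧
    ∀ F : Finset ℚˣ, (∀ w ∈ F, ∀ i, w ∉ V i) → ∃ κ : ℝ, 0 < κ ∧ ∀ A : ℕ, ∃ N ≥ A,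
      κ * (N / Real.log N ^ 2) ≤ #{p ∈ Icc 1 N | p.Prime ∧ ∀ w ∈ F, IsRoot (w : ℚ) p ↔ ε w = -1} := by
  obtain ⟨a, ha1, ha2, ha3, ha4, ha5, ha6⟩ := system ε hε
  obtain ⟨V, hV, hF⟩ := main1E a ha1 ha2 ha3
  refine ⟨V, hV, fun F hFV => ?_⟩
  obtain ⟨m, hm⟩ : ∃ m : ℕ, m = 8 * ∏ w ∈ F, ((w : ℚ).num.natAbs * (w : ℚ).den) := ⟨_, rfl⟩
  have hpos : ∀ w : ℚˣ, 0 < (w : ℚ).num.natAbs * (w : ℚ).den := by
    intro w
    apply Nat.mul_pos
    · apply Nat.pos_of_ne_zero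
      rw [Int.natAbs_ne_zero]
      exact Rat.num_ne_zero.2 w.ne_zero
    · exact Nat.pos_of_ne_zero (w : ℚ).den_nz
  have hm0 : 0 < m := by
    rw [hm]
    exact Nat.mul_pos (by norm_num) (Finset.prod_pos fun w _ => hpos w)
  obtain ⟨κ, hκ, hS⟩ := hF F hFV m hm0
  refine ⟨κ, hκ, fun A => ?_⟩
  obtain ⟨N, hNA, hN⟩ := hS A
  refine ⟨N, hNA, hN.trans ?_⟩
  norm_cast
  apply card_le_card
  intro p hp
  rw [mem_filter] at hp ⊢
  obtain ⟨h0, hpp, h1, hpm, h2⟩ := hp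
  refine ⟨h0, hpp, fun w hw => ?_⟩
  have : Fact p.Prime := ⟨hpp⟩
  rw [h2 w hw]
  have h8m : 8 ∣ m := by rw [hm]; exact dvd_mul_right _ _
  have hwm : (w : ℚ).num.natAbs * (w : ℚ).den ∣ m := by
    rw [hm]
    exact Dvd.dvd.mul_left (dvd_prod_of_mem (fun w : ℚˣ => (w : ℚ).num.natAbs * (w : ℚ).den) hw) _
  have hp8 : p ≡ a 8 [MOD 8] := (h1.of_dvd h8m).trans (ha2 8 m hm0 h8m)
  have h8le := Nat.le_of_dvd hm0 h8m
  obtain ⟨g1, g2⟩ := leg_class ε a ha4 ha5 ha6 p (by omega) hp8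
  have hle : (w : ℚ).num.natAbs * (w : ℚ).den ≤ m := Nat.le_of_dvd hm0 hwm
  apply Leg_sq p ε w
  · apply rat_mem _ g1
    intro q hq hqd hq0
    have hqm : q ∣ m := hqd.trans hwm
    have hqle : q ≤ m := Nat.le_of_dvd hm0 hqm
    exact g2 q hq (by omega) ((h1.of_dvd hqm).trans (ha2 q m hm0 hqm)) hq0
  · intro h
    have h3 : p ∣ (w : ℚ).num.natAbs := Int.natCast_dvd.1 h
    have h4 := Nat.le_of_dvd (hpos w) (h3.mul_right (w : ℚ).den)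
    omega
  · intro h
    have h4 := Nat.le_of_dvd (hpos w) (h.mul_left (w : ℚ).num.natAbs)
    omega

end Pool.Agent.Run7.h166.SP
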