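import Pool.Agent.Run7.h166.SP.Lim

/-!
Simultaneous primitive roots in residue classes.
-/

set_option autoImplicit false

namespace Pool.Agent.Run7.h166.SP

open Finset Filter
open Pool.Agent.R498.MX (Qs Qs_mem)

/-- `w` is a unit at `p` and its residue class modulo `p` is a primitive root -/
def IsRoot (w : ℚ) (p : ℕ) : Prop :=
  ¬ (p : ℤ) ∣ w.num ∧ ¬ p ∣ w.den ∧ ∀ e : ℕ, 0 < e → e < p - 1 →
    ¬ ((w.num : ℤ) : ZMod p) ^ e = ((w.den : ℕ) : ZMod p) ^ e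

theorem isRoot_of (p : ℕ) (hp : p.Prime) (w : ℚˣ) (hw : w ∈ Qs p hp 0)
    (h : ∀ l : ℕ, l.Prime → l ∣ p - 1 → w ∉ Qs p hp ((p - 1) / l)) : IsRoot w p := by
  have : Fact p.Prime := ⟨hp⟩
  rw [Qs_mem] at hw
  obtain ⟨⟨hn, hd⟩, -⟩ := hw
  refine ⟨hn, hd, fun e he0 he hcon => ?_⟩
  have hn0 : (((w : ℚ).num : ℤ) : ZMod p) ≠ 0 := fun h => hn ((ZMod.intCast_zmod_eq_zero_iff_dvd _ _).1 h)
  have hd0 : (((w : ℚ).den : ℕ) : ZMod p) ≠ 0 := fun h => hd ((ZMod.natCast_eq_zero_iff _ _).1 h)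
  obtain ⟨u, hu⟩ : ∃ u : ZMod p, u = (((w : ℚ).num : ℤ) : ZMod p) / (((w : ℚ).den : ℕ) : ZMod p) := ⟨_, rfl⟩
  have hpow : ∀ e : ℕ, u ^ e = 1 ↔ (((w : ℚ).num : ℤ) : ZMod p) ^ e = (((w : ℚ).den : ℕ) : ZMod p) ^ e := by
    intro e
    rw [hu, div_pow, div_eq_one_iff_eq (pow_ne_zero _ hd0)]
  have hp1 : 0 < p - 1 := by have := hp.two_le; omega
  have hord : orderOf u = p - 1 := by
    apply orderOf_eq_of_pow_and_pow_div_prime hp1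
    · apply ZMod.pow_card_sub_one_eq_one
      rw [hu]
      exact div_ne_zero hn0 hd0
    · intro l hl hld hl1
      apply h l hl hld
      rw [Qs_mem]
      exact ⟨⟨hn, hd⟩, (hpow _).1 hl1⟩
  have h1 : u ^ e ≠ 1 := pow_ne_one_of_lt_orderOf (by omega) (by omega)
  exact h1 ((hpow e).2 hcon)

theorem unit_of_large (F : Finset ℚˣ) : ∃ H : ℕ, ∀ w ∈ F, ∀ p : ℕ, ∀ hp : p.Prime, H < p → w ∈ Qs p hp 0 := by
  refine ⟨∑ w ∈ F, ((w : ℚ).num.natAbs + (w : ℚ).den), fun w hw p hp hpH => ?_⟩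
  have h1 := Finset.single_le_sum (f := fun w : ℚˣ => (w : ℚ).num.natAbs + (w : ℚ).den)
    (fun j _ => Nat.zero_le _) hw
  have hn0 : (w : ℚ).num.natAbs ≠ 0 := by
    rw [Int.natAbs_ne_zero]
    exact Rat.num_ne_zero.2 w.ne_zero
  have hd0 := (w : ℚ).den_nz
  rw [Qs_mem]
  refine ⟨⟨fun h => ?_, fun h => ?_⟩, by simp⟩
  · have := Nat.le_of_dvd (Nat.pos_of_ne_zero hn0) (Int.natCast_dvd.1 h)
    omega
  · have := Nat.le_of_dvd (Nat.pos_of_ne_zero hd0) h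
    omega

/-- `w` is a square modulo `p` iff its `(p-1)/2`-th power is `1` -/
theorem square_iff (p : ℕ) (hp : p.Prime) (hp2 : 2 < p) (w : ℚˣ) (hw : w ∈ Qs p hp 0) :
    IsSquare ((((w : ℚ).num * (w : ℚ).den : ℤ)) : ZMod p) ↔ w ∈ Qs p hp ((p - 1) / 2) := by
  have : Fact p.Prime := ⟨hp⟩
  rw [Qs_mem] at hw ⊢
  obtain ⟨⟨hn, hd⟩, -⟩ := hw
  have hn0 : (((w : ℚ).num : ℤ) : ZMod p) ≠ 0 := fun h => hn ((ZMod.intCast_zmod_eq_zero_iff_dvd _ _).1 h)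
  have hd0 : (((w : ℚ).den : ℕ) : ZMod p) ≠ 0 := fun h => hd ((ZMod.natCast_eq_zero_iff _ _).1 h)
  have hodd : p % 2 = 1 := by
    rcases hp.eq_two_or_odd with h10 | h10
    · omega
    · exact h10
  have e2 : (p - 1) / 2 = p / 2 := by omega
  have e3 : 2 * ((p - 1) / 2) = p - 1 := by omega
  have hdd : (((w : ℚ).den : ℕ) : ZMod p) ^ ((p - 1) / 2) * (((w : ℚ).den : ℕ) : ZMod p) ^ ((p - 1) / 2) = 1 := by
    rw [← pow_add, ← two_mul, e3]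
    exact ZMod.pow_card_sub_one_eq_one hd0
  push_cast
  rw [ZMod.euler_criterion p (mul_ne_zero hn0 hd0), mul_pow, ← e2]
  constructor
  · intro h
    refine ⟨⟨hn, hd⟩, ?_⟩
    exact mul_right_cancel₀ (pow_ne_zero _ hd0) (h.trans hdd.symm)
  · rintro ⟨-, h⟩
    rw [h]
    exact hdd

theorem square_of_root (p : ℕ) (hp : p.Prime) (hp2 : 2 < p) (w : ℚˣ) (h : IsRoot w p) :
    ¬ IsSquare ((((w : ℚ).num * (w : ℚ).den : ℤ)) : ZMod p) := by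
  have hw : w ∈ Qs p hp 0 := by
    rw [Qs_mem]
    exact ⟨⟨h.1, h.2.1⟩, by simp⟩
  rw [square_iff p hp hp2 w hw, Qs_mem]
  rintro ⟨-, h1⟩
  exact h.2.2 ((p - 1) / 2) (by omega) (by omega) h1

open Classical in
/-- **Simultaneous primitive roots in residue classes.** -/
theorem main1 (r : ℕ) : ∃ K M B : ℕ, 1 ≤ K ∧ ∀ a : ℕ → ℕ, (∀ m, 0 < m → (a m).Coprime m) →
    (∀ m n : ℕ, 0 < n → m ∣ n → a n ≡ a m [MOD m]) →
    (∀ l : ℕ, l.Prime → l ≠ 2 → ¬ a l ≡ 1 [MOD l]) →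
    ∃ V : Fin M → Subgroup ℚˣ, (∀ i, NoInd K (V i : Set ℚˣ)) ∧
    ∀ F : Finset ℚˣ, (∀ w ∈ F, ∀ i, w ∉ V i) → ∀ m : ℕ, 0 < m → ∃ S : ℕ, ∀ A : ℕ, ∃ N ≥ A,
      (N : ℝ) ≤ Real.log N ^ B * #{n ∈ Ioc N (2 * N) | r < #{p ∈ Icc n (n + S) | p.Prime} ∧
        ∀ p ∈ Icc n (n + S), p.Prime → p ≡ a m [MOD m] ∧
          ∀ w ∈ F, IsRoot (w : ℚ) p ↔ ¬ IsSquare ((((w : ℚ).num * (w : ℚ).den : ℤ)) : ZMod p)} := by
  obtain ⟨K, M, B, hK, hlim⟩ := limit r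
  refine ⟨K, M, B, hK, fun a ha hac hal => ?_⟩
  obtain ⟨V, hV, hmain⟩ := hlim a ha
  refine ⟨V, hV, fun F hF m hm => ?_⟩
  obtain ⟨W, S, hW0, hWd, hN⟩ := hmain (F.image (fun w _ => w)) (by
    intro y hy i
    rw [mem_image] at hy
    obtain ⟨w, hw, rfl⟩ := hy
    exact hF w hw i) m
  obtain ⟨H, hH⟩ := unit_of_large F
  refine ⟨S, fun A => ?_⟩
  obtain ⟨N, hNA, hN⟩ := hN (A + H + 2)
  refine ⟨N, by omega, hN.trans ?_⟩
  apply mul_le_mul_of_nonneg_left _ (pow_nonneg (Real.log_natCast_nonneg N) B)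
  norm_cast
  apply card_le_card
  intro n hn
  rw [mem_filter] at hn ⊢
  refine ⟨hn.1, hn.2.1, fun p hp hpp => ?_⟩
  obtain ⟨h1, h2⟩ := hn.2.2 p hp hpp
  have hnN := (mem_Ioc.1 hn.1).1
  have hpn := (mem_Icc.1 hp).1
  refine ⟨(h1.of_dvd (hWd m le_rfl hm)).trans (hac m W hW0 (hWd m le_rfl hm)), fun w hw => ?_⟩
  have hwu : w ∈ Qs p hpp 0 := hH w hw p hpp (by omega)
  refine ⟨square_of_root p hpp (by omega) w, fun hsq => ?_⟩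
  rw [square_iff p hpp (by omega) w hwu] at hsq
  apply isRoot_of p hpp w hwu
  intro l hl hld
  by_cases hl2 : l = 2
  · rw [hl2]
    exact hsq
  by_cases hlW : l ∣ W
  · exfalso
    apply hal l hl hl2
    have h3 : 1 ≡ p [MOD l] := (Nat.modEq_iff_dvd' hpp.one_lt.le).2 hld
    exact ((h1.of_dvd hlW).trans (hac l W hW0 hlW)).symm.trans h3.symm
  · obtain ⟨i, hi⟩ := h2 l hl hlW hld (fun _ => w) (mem_image.2 ⟨w, hw, rfl⟩)
    exact hi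

end Pool.Agent.Run7.h166.SP
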