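import Pool.Agent.Run7.h166.SP.Root

/-!
Primes at which the quadratic characters of the rational numbers are given.
-/

set_option autoImplicit false

namespace Pool.Agent.Run7.h166.SP

open Finset Filter

theorem res_odd (q : ℕ) [Fact q.Prime] (hq : q ≠ 2) (s : ℤˣ) (h3 : q = 3 → s = -1) :
    ∃ u : ℕ, ¬ q ∣ u ∧ ¬ u ≡ 1 [MOD q] ∧ legendreSym q (u : ℤ) = (s : ℤ) := by
  have hp : q.Prime := Fact.out
  rcases Int.units_eq_one_or s with h | h
  · have hq3 : q ≠ 3 := fun h' => by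
      have := h3 h'
      rw [h] at this
      exact absurd this (by decide)
    have h5 : 5 ≤ q := by
      have := hp.two_le
      by_contra hcon
      have h6 : q = 4 := by omega
      rw [h6] at hp
      exact absurd hp (by decide)
    have h4 : ¬ q ∣ 4 := by
      intro h'
      have := Nat.le_of_dvd (by norm_num) h'
      omega
    refine ⟨4, h4, ?_, ?_⟩
    · intro h'
      have h6 := (Nat.modEq_iff_dvd' (by norm_num)).1 h'.symm
      have := Nat.le_of_dvd (by norm_num) h6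
      omega
    · rw [h]
      have e : ((4 : ℕ) : ℤ) = 2 ^ 2 := by norm_num
      rw [e, legendreSym.sq_one']
      · rfl
      · intro h0
        have h1 : ((2 : ℕ) : ZMod q) = 0 := by exact_mod_cast h0
        rw [ZMod.natCast_eq_zero_iff] at h1
        have := Nat.le_of_dvd (by norm_num) h1
        omega
  · obtain ⟨x, hx⟩ := FiniteField.exists_nonsquare (F := ZMod q) (by rw [ZMod.ringChar_zmod_n]; exact hq)
    have hxv : ((x.val : ℕ) : ZMod q) = x := ZMod.natCast_zmod_val x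
    refine ⟨x.val, ?_, ?_, ?_⟩
    · intro h'
      apply hx
      have h1 : ((x.val : ℕ) : ZMod q) = 0 := (ZMod.natCast_eq_zero_iff _ _).2 h'
      rw [← hxv, h1]
      exact IsSquare.zero
    · intro h'
      apply hx
      have h1 : ((x.val : ℕ) : ZMod q) = ((1 : ℕ) : ZMod q) := (ZMod.natCast_eq_natCast_iff _ _ _).2 h'
      rw [← hxv, h1, Nat.cast_one]
      exact IsSquare.one
    · rw [h]
      have h1 : legendreSym q ((x.val : ℕ) : ℤ) = -1 := by
        rw [legendreSym.eq_neg_one_iff]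
        rw [Int.cast_natCast, hxv]
        exact hx
      rw [h1]
      rfl

theorem res_two (s t : ℤˣ) : ∃ u : ℕ, ¬ 2 ∣ u ∧ ZMod.χ₄ ((u : ℕ) : ZMod 4) = (s : ℤ) ∧
    ZMod.χ₈ ((u : ℕ) : ZMod 8) = (t : ℤ) := by
  rcases Int.units_eq_one_or s with h | h <;> rcases Int.units_eq_one_or t with h' | h' <;> rw [h, h']
  · exact ⟨1, by decide, by decide, by decide⟩
  · exact ⟨5, by decide, by decide, by decide⟩
  · exact ⟨7, by decide, by decide, by decide⟩
  · exact ⟨3, by decide, by decide, by decide⟩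

/-- the unit `(-1)^(q/2) q` -/
noncomputable def qst (q : ℕ) (hq : q.Prime) : ℚˣ :=
  (-1) ^ (q / 2) * Units.mk0 (q : ℚ) (by exact_mod_cast hq.ne_zero)

/-- a compatible system of residues -/
theorem system (ε : ℚˣ →* ℤˣ) (hε : ε (Units.mk0 (-3) (by norm_num)) = -1) :
    ∃ a : ℕ → ℕ, (∀ m, 0 < m → (a m).Coprime m) ∧ (∀ m n : ℕ, 0 < n → m ∣ n → a n ≡ a m [MOD m]) ∧
      (∀ l : ℕ, l.Prime → l ≠ 2 → ¬ a l ≡ 1 [MOD l]) ∧
      ZMod.χ₄ ((a 8 : ℕ) : ZMod 4) = (ε (-1) : ℤ) ∧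
      ZMod.χ₈ ((a 8 : ℕ) : ZMod 8) = (ε (Units.mk0 2 (by norm_num)) : ℤ) ∧
      ∀ (q : ℕ) (hq : q.Prime), q ≠ 2 → @legendreSym q ⟨hq⟩ ((a q : ℕ) : ℤ) = (ε (qst q hq) : ℤ) := by
  obtain ⟨u₂, hu1, hu2, hu3⟩ := res_two (ε (-1)) (ε (Units.mk0 2 (by norm_num)))
  have hodd : ∀ q : ℕ, ∃ u : ℕ, ∀ hq : q.Prime, q ≠ 2 → ¬ q ∣ u ∧ ¬ u ≡ 1 [MOD q] ∧
      @legendreSym q ⟨hq⟩ (u : ℤ) = (ε (qst q hq) : ℤ) := by
    intro q
    by_cases hq : q.Prime ∧ q ≠ 2
    · have : Fact q.Prime := ⟨hq.1⟩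
      obtain ⟨u, h1, h2, h3⟩ := res_odd q hq.2 (ε (qst q hq.1)) (by
        intro h
        subst h
        rw [← hε]
        congr 1
        unfold qst
        apply Units.ext
        norm_num)
      exact ⟨u, fun _ _ => ⟨h1, h2, h3⟩⟩
    · exact ⟨0, fun h1 h2 => absurd ⟨h1, h2⟩ hq⟩
  choose u hu using hodd
  obtain ⟨v, hv⟩ : ∃ v : ℕ → ℕ, v = fun q => if q = 2 then u₂ else u q := ⟨_, rfl⟩
  have hv2 : v 2 = u₂ := by rw [hv]; simp
  have hvq : ∀ q, q ≠ 2 → v q = u q := fun q hq => by rw [hv]; simp [hq]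
  have hvd : ∀ q : ℕ, q.Prime → ¬ q ∣ v q := by
    intro q hq
    by_cases h2 : q = 2
    · rw [h2, hv2]; exact hu1
    · rw [hvq q h2]; exact (hu q hq h2).1
  -- the Chinese remainder theorem
  have hcrt : ∀ m : ℕ, ∃ x : ℕ, ∀ q ∈ m.primeFactors, x ≡ v q [MOD q ^ m.factorization q] := by
    intro m
    obtain ⟨x, hx⟩ := Nat.chineseRemainderOfFinset v (fun q => q ^ m.factorization q) m.primeFactors
      (fun q hq => pow_ne_zero _ (Nat.prime_of_mem_primeFactors hq).ne_zero) (by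
        intro q hq q' hq' hne
        exact Nat.Coprime.pow _ _ ((Nat.coprime_primes (Nat.prime_of_mem_primeFactors hq)
          (Nat.prime_of_mem_primeFactors hq')).2 hne))
    exact ⟨x, hx⟩
  choose a ha using hcrt
  have haq : ∀ m q : ℕ, 0 < m → q.Prime → q ∣ m → a m ≡ v q [MOD q] := by
    intro m q hm hq hqm
    have h1 := ha m q (Nat.mem_primeFactors.2 ⟨hq, hqm, hm.ne'⟩)
    apply h1.of_dvd
    apply dvd_pow_self
    have := hq.factorization_pos_of_dvd hm.ne' hqm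
    omega
  refine ⟨a, ?_, ?_, ?_, ?_, ?_, ?_⟩
  · intro m hm
    rw [Nat.coprime_iff_gcd_eq_one]
    by_contra hne
    obtain ⟨q, hq, hqd⟩ := Nat.exists_prime_and_dvd hne
    have h1 := hqd.trans (Nat.gcd_dvd_left _ _)
    have h2 := hqd.trans (Nat.gcd_dvd_right _ _)
    exact hvd q hq (((haq m q hm hq h2).dvd_iff dvd_rfl).1 h1)
  · intro m n hn hmn
    have hm : 0 < m := Nat.pos_of_dvd_of_pos hmn hn
    rw [Nat.modEq_iff_dvd]
    have hprod : (m : ℤ) = ∏ q ∈ m.primeFactors, ((q ^ m.factorization q : ℕ) : ℤ) := by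
      have h1 := Nat.prod_factorization_pow_eq_self hm.ne'
      conv_lhs => rw [← h1]
      unfold Finsupp.prod
      rw [Nat.support_factorization]
      push_cast
      rfl
    rw [hprod]
    apply Finset.prod_dvd_of_coprime
    · intro q hq q' hq' hne
      apply Nat.Coprime.isCoprime
      exact Nat.Coprime.pow _ _ ((Nat.coprime_primes (Nat.prime_of_mem_primeFactors hq)
          (Nat.prime_of_mem_primeFactors hq')).2 hne)
    · intro q hq
      rw [← Nat.modEq_iff_dvd]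
      have hqp := Nat.prime_of_mem_primeFactors hq
      have h1 := ha m q hq
      have h2 := ha n q (Nat.mem_primeFactors.2 ⟨hqp, (Nat.dvd_of_mem_primeFactors hq).trans hmn, hn.ne'⟩)
      have h3 : q ^ m.factorization q ∣ q ^ n.factorization q := by
        apply pow_dvd_pow
        exact (Nat.factorization_le_iff_dvd hm.ne' hn.ne').2 hmn q
      exact (h2.of_dvd h3).trans h1.symm
  · intro l hl hl2 h1
    apply (hu l hl hl2).2.1
    rw [← hvq l hl2]
    exact (haq l l hl.pos hl dvd_rfl).symm.trans h1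
  · have h1 := ha 8 2 (Nat.mem_primeFactors.2 ⟨Nat.prime_two, by norm_num, by norm_num⟩)
    have h8 : (8 : ℕ).factorization 2 = 3 := by
      have e : (8 : ℕ) = 2 ^ 3 := by norm_num
      rw [e, Nat.Prime.factorization_pow Nat.prime_two, Finsupp.single_eq_same]
    rw [h8, hv2] at h1
    have h2 : a 8 ≡ u₂ [MOD 4] := h1.of_dvd (by norm_num)
    rw [(ZMod.natCast_eq_natCast_iff _ _ _).2 h2]
    exact hu2
  · have h1 := ha 8 2 (Nat.mem_primeFactors.2 ⟨Nat.prime_two, by norm_num, by norm_num⟩)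
    have h8 : (8 : ℕ).factorization 2 = 3 := by
      have e : (8 : ℕ) = 2 ^ 3 := by norm_num
      rw [e, Nat.Prime.factorization_pow Nat.prime_two, Finsupp.single_eq_same]
    rw [h8, hv2] at h1
    have h2 : a 8 ≡ u₂ [MOD 8] := h1.of_dvd (by norm_num)
    rw [(ZMod.natCast_eq_natCast_iff _ _ _).2 h2]
    exact hu3
  · intro q hq hq2
    have : Fact q.Prime := ⟨hq⟩
    rw [← (hu q hq hq2).2.2, ← hvq q hq2]
    have h1 : (((a q : ℕ) : ℤ) : ZMod q) = (((v q : ℕ) : ℤ) : ZMod q) := by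
      push_cast
      exact (ZMod.natCast_eq_natCast_iff _ _ _).2 (haq q q hq.pos hq dvd_rfl)
    unfold legendreSym
    rw [h1]

/-- the rational numbers at which the Legendre symbol is `ε` -/
def Leg (p : ℕ) [Fact p.Prime] (ε : ℚˣ →* ℤˣ) : Subgroup ℚˣ where
  carrier := {w | ∃ a c : ℤ, ¬ (p : ℤ) ∣ a ∧ ¬ (p : ℤ) ∣ c ∧ (w : ℚ) * c = a ∧
    legendreSym p a * legendreSym p c = (ε w : ℤ)}
  one_mem' := by
    have hp : p.Prime := Fact.out
    have h1 : ¬ (p : ℤ) ∣ 1 := by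
      intro h
      have : p ∣ 1 := by exact_mod_cast h
      exact hp.one_lt.ne' (Nat.dvd_one.1 this)
    refine ⟨1, 1, h1, h1, by simp, ?_⟩
    rw [map_one, legendreSym.at_one]
    rfl
  mul_mem' := by
    rintro w w' ⟨a, c, h1, h2, h3, h4⟩ ⟨a', c', h1', h2', h3', h4'⟩
    have hp : p.Prime := Fact.out
    have hpi := Nat.prime_iff_prime_int.1 hp
    refine ⟨a * a', c * c', fun h => (hpi.dvd_or_dvd h).elim h1 h1', fun h => (hpi.dvd_or_dvd h).elim h2 h2',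
      ?_, ?_⟩
    · push_cast
      rw [← h3, ← h3']
      ring
    · rw [legendreSym.mul, legendreSym.mul, map_mul, Units.val_mul, ← h4, ← h4']
      ring
  inv_mem' := by
    rintro w ⟨a, c, h1, h2, h3, h4⟩
    refine ⟨c, a, h2, h1, ?_, ?_⟩
    · rw [← h3]
      push_cast
      have := w.ne_zero
      field_simp
    · rw [mul_comm, h4, map_inv, Int.units_inv_eq_self]

theorem Leg_sq (p : ℕ) [Fact p.Prime] (ε : ℚˣ →* ℤˣ) (w : ℚˣ) (hw : w ∈ Leg p ε)
    (hn : ¬ (p : ℤ) ∣ (w : ℚ).num) (hd : ¬ p ∣ (w : ℚ).den) :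
    ¬ IsSquare ((((w : ℚ).num * (w : ℚ).den : ℤ)) : ZMod p) ↔ ε w = -1 := by
  have hp : p.Prime := Fact.out
  obtain ⟨a, c, h1, h2, h3, h4⟩ := hw
  have h5 : (w : ℚ).num * c = a * (w : ℚ).den := by
    have h6 : ((w : ℚ).num : ℚ) / (w : ℚ).den * c = a := by rw [Rat.num_div_den]; exact h3
    have h7 : ((w : ℚ).den : ℚ) ≠ 0 := by exact_mod_cast (w : ℚ).den_nz
    field_simp at h6
    rw [mul_comm a]
    exact_mod_cast h6
  have hz : ∀ x : ℤ, ¬ (p : ℤ) ∣ x → ((x : ℤ) : ZMod p) ≠ 0 := fun x hx h =>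
    hx ((ZMod.intCast_zmod_eq_zero_iff_dvd _ _).1 h)
  have hsq : ∀ x : ℤ, ¬ (p : ℤ) ∣ x → legendreSym p x * legendreSym p x = 1 := by
    intro x hx
    rw [← pow_two]
    exact legendreSym.sq_one p (hz x hx)
  have hd' : ¬ (p : ℤ) ∣ ((w : ℚ).den : ℤ) := fun h => hd (Int.natCast_dvd_natCast.1 h)
  have h6 : legendreSym p (w : ℚ).num * legendreSym p c = legendreSym p a * legendreSym p ((w : ℚ).den : ℤ) := by
    rw [← legendreSym.mul, ← legendreSym.mul, h5]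
  have h7 : legendreSym p ((w : ℚ).num * (w : ℚ).den : ℤ) = (ε w : ℤ) := by
    rw [legendreSym.mul, ← h4]
    calc legendreSym p (w : ℚ).num * legendreSym p ((w : ℚ).den : ℤ)
        = legendreSym p (w : ℚ).num * (legendreSym p c * legendreSym p c) *
          legendreSym p ((w : ℚ).den : ℤ) := by rw [hsq c h2, mul_one]
      _ = (legendreSym p (w : ℚ).num * legendreSym p c) * legendreSym p c *
          legendreSym p ((w : ℚ).den : ℤ) := by ring
      _ = (legendreSym p a * legendreSym p ((w : ℚ).den : ℤ)) * legendreSym p c *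
          legendreSym p ((w : ℚ).den : ℤ) := by rw [h6]
      _ = (legendreSym p ((w : ℚ).den : ℤ) * legendreSym p ((w : ℚ).den : ℤ)) *
          (legendreSym p a * legendreSym p c) := by ring
      _ = legendreSym p a * legendreSym p c := by rw [hsq _ hd', one_mul]
  rw [← legendreSym.eq_neg_one_iff, h7]
  constructor
  · intro h
    apply Units.ext
    rw [h]
    rfl
  · intro h
    rw [h]
    rfl

/-- positive integers -/
theorem nat_mem (G : Subgroup ℚˣ) (n : ℕ) : ∀ hn : (n : ℚ) ≠ 0,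
    (∀ q : ℕ, q.Prime → q ∣ n → ∀ hq : (q : ℚ) ≠ 0, Units.mk0 (q : ℚ) hq ∈ G) → Units.mk0 (n : ℚ) hn ∈ G := by
  induction n using induction_on_primes with
  | zero => intro hn; exact absurd Nat.cast_zero hn
  | one =>
    intro hn _
    have : Units.mk0 ((1 : ℕ) : ℚ) hn = 1 := by
      apply Units.ext
      simp
    rw [this]
    exact G.one_mem
  | prime_mul p a hp ih =>
    intro hn h
    have ha : (a : ℚ) ≠ 0 := by
      intro h0
      apply hn
      push_cast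
      rw [h0, mul_zero]
    have hp0 : (p : ℚ) ≠ 0 := by exact_mod_cast hp.ne_zero
    have e : Units.mk0 ((p * a : ℕ) : ℚ) hn = Units.mk0 (p : ℚ) hp0 * Units.mk0 (a : ℚ) ha := by
      apply Units.ext
      simp
    rw [e]
    exact G.mul_mem (h p hp (dvd_mul_right _ _) hp0) (ih ha (fun q hq hqa => h q hq (hqa.mul_left _)))

theorem rat_mem (G : Subgroup ℚˣ) (h1 : (-1 : ℚˣ) ∈ G) (w : ℚˣ)
    (h : ∀ q : ℕ, q.Prime → q ∣ (w : ℚ).num.natAbs * (w : ℚ).den → ∀ hq : (q : ℚ) ≠ 0,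
      Units.mk0 (q : ℚ) hq ∈ G) : w ∈ G := by
  have hn0 : (((w : ℚ).num.natAbs : ℕ) : ℚ) ≠ 0 := by
    have : (w : ℚ).num.natAbs ≠ 0 := by
      rw [Int.natAbs_ne_zero]
      exact Rat.num_ne_zero.2 w.ne_zero
    exact_mod_cast this
  have hd0 : (((w : ℚ).den : ℕ) : ℚ) ≠ 0 := by exact_mod_cast (w : ℚ).den_nz
  have hN := nat_mem G _ hn0 (fun q hq hqd => h q hq (hqd.mul_right _))
  have hD := nat_mem G _ hd0 (fun q hq hqd => h q hq (hqd.mul_left _))
  have hw : (w : ℚ) = (w : ℚ).num / (w : ℚ).den := (Rat.num_div_den _).symm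
  rcases Int.natAbs_eq (w : ℚ).num with h2 | h2
  · have e : w = Units.mk0 (((w : ℚ).num.natAbs : ℕ) : ℚ) hn0 * (Units.mk0 (((w : ℚ).den : ℕ) : ℚ) hd0)⁻¹ := by
      apply Units.ext
      rw [Units.val_mul, Units.val_inv_eq_inv_val, Units.val_mk0, Units.val_mk0, ← div_eq_mul_inv]
      have h3 := congrArg (Int.cast : ℤ → ℚ) h2
      rw [Int.cast_natCast] at h3
      conv_lhs => rw [hw]
      rw [h3]
    rw [e]
    exact G.mul_mem hN (G.inv_mem hD)
  · have e : w = (-1) * (Units.mk0 (((w : ℚ).num.natAbs : ℕ) : ℚ) hn0 *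
        (Units.mk0 (((w : ℚ).den : ℕ) : ℚ) hd0)⁻¹) := by
      apply Units.ext
      rw [Units.val_mul, Units.val_mul, Units.val_inv_eq_inv_val, Units.val_mk0, Units.val_mk0,
        ← div_eq_mul_inv]
      have h3 := congrArg (Int.cast : ℤ → ℚ) h2
      rw [Int.cast_neg, Int.cast_natCast] at h3
      conv_lhs => rw [hw]
      rw [h3, neg_div, Units.val_neg, Units.val_one, neg_one_mul]
    rw [e]
    exact G.mul_mem h1 (G.mul_mem hN (G.inv_mem hD))

/-- the Legendre symbols modulo a prime in the class -/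
theorem leg_class (ε : ℚˣ →* ℤˣ) (a : ℕ → ℕ) (h4 : ZMod.χ₄ ((a 8 : ℕ) : ZMod 4) = (ε (-1) : ℤ))
    (h8 : ZMod.χ₈ ((a 8 : ℕ) : ZMod 8) = (ε (Units.mk0 2 (by norm_num)) : ℤ))
    (hq : ∀ (q : ℕ) (hq : q.Prime), q ≠ 2 → @legendreSym q ⟨hq⟩ ((a q : ℕ) : ℤ) = (ε (qst q hq) : ℤ))
    (p : ℕ) [Fact p.Prime] (hp2 : p ≠ 2) (hp8 : p ≡ a 8 [MOD 8]) :
    (-1 : ℚˣ) ∈ Leg p ε ∧ ∀ q : ℕ, q.Prime → q ≠ p → p ≡ a q [MOD q] → ∀ hq0 : (q : ℚ) ≠ 0,
      Units.mk0 (q : ℚ) hq0 ∈ Leg p ε := by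
  have hp : p.Prime := Fact.out
  have h1 : ¬ (p : ℤ) ∣ 1 := by
    intro h
    have : p ∣ 1 := by exact_mod_cast h
    exact hp.one_lt.ne' (Nat.dvd_one.1 this)
  have hm1 : legendreSym p (-1) = (ε (-1) : ℤ) := by
    rw [legendreSym.at_neg_one hp2, ← h4]
    have h2 : p ≡ a 8 [MOD 4] := hp8.of_dvd (by norm_num)
    rw [(ZMod.natCast_eq_natCast_iff _ _ _).2 h2]
  refine ⟨⟨-1, 1, by rwa [dvd_neg], h1, by simp, by rw [legendreSym.at_one, mul_one, hm1]⟩, ?_⟩
  intro q hqp hqne hpq hq0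
  have hqd : ¬ (p : ℤ) ∣ ((q : ℕ) : ℤ) := by
    intro h
    have h2 : p ∣ q := Int.natCast_dvd_natCast.1 h
    rcases (Nat.dvd_prime hqp).1 h2 with h3 | h3
    · exact hp.one_lt.ne' h3
    · exact hqne h3.symm
  refine ⟨q, 1, hqd, h1, by simp, ?_⟩
  rw [legendreSym.at_one, mul_one]
  by_cases hq2 : q = 2
  · subst hq2
    have e : ((2 : ℕ) : ℤ) = 2 := by norm_num
    rw [e, legendreSym.at_two hp2]
    have e2 : Units.mk0 ((2 : ℕ) : ℚ) hq0 = Units.mk0 (2 : ℚ) (by norm_num) := by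
      apply Units.ext
      simp
    rw [e2, ← h8, (ZMod.natCast_eq_natCast_iff _ _ _).2 hp8]
  · have : Fact q.Prime := ⟨hqp⟩
    have h2 : legendreSym q ((p : ℕ) : ℤ) = (ε (qst q hqp) : ℤ) := by
      rw [← hq q hqp hq2]
      have h3 : (((p : ℕ) : ℤ) : ZMod q) = (((a q : ℕ) : ℤ) : ZMod q) := by
        push_cast
        exact (ZMod.natCast_eq_natCast_iff _ _ _).2 hpq
      unfold legendreSym
      rw [h3]
    have h3 : (ε (qst q hqp) : ℤ) = (ε (-1) : ℤ) ^ (q / 2) * (ε (Units.mk0 (q : ℚ) hq0) : ℤ) := by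
      unfold qst
      rw [map_mul, map_pow, Units.val_mul, Units.val_pow_eq_pow_val]
    have h5 : (ε (-1) : ℤ) = (-1) ^ (p / 2) := by
      rw [← hm1, legendreSym.at_neg_one hp2, ZMod.χ₄_nat_eq_if_mod_four]
      have hpo : p % 2 = 1 := by
        rcases hp.eq_two_or_odd with h | h
        · exact absurd h hp2
        · exact h
      have h6 : p % 4 = 1 ∨ p % 4 = 3 := by omega
      rcases h6 with h6 | h6
      · have h7 : Even (p / 2) := ⟨p / 4, by omega⟩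
        rw [if_neg (by omega), if_pos h6, h7.neg_one_pow]
      · have h7 : Odd (p / 2) := ⟨p / 4, by omega⟩
        rw [if_neg (by omega), if_neg (by omega), h7.neg_one_pow]
    have h6 := legendreSym.quadratic_reciprocity' (p := q) (q := p) hq2 hp2
    -- `legendreSym p q = (-1)^(q/2 * (p/2)) * legendreSym q p`
    rw [h6, h2, h3, h5, ← pow_mul, mul_comm (q / 2) (p / 2), ← mul_assoc, ← pow_add, ← two_mul,
      pow_mul (-1 : ℤ) 2, neg_one_sq, one_pow, one_mul]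

open Classical in
/-- **Simultaneous primitive roots with a given multiplicative pattern.** -/
theorem main2 (r : ℕ) : ∃ K M B : ℕ, 1 ≤ K ∧
    ∀ ε : ℚˣ →* ℤˣ, ε (Units.mk0 (-3) (by norm_num)) = -1 →
    ∃ V : Fin M → Subgroup ℚˣ, (∀ i, NoInd K (V i : Set ℚˣ)) ∧
    ∀ F : Finset ℚˣ, (∀ w ∈ F, ∀ i, w ∉ V i) → ∃ S : ℕ, ∀ A : ℕ, ∃ N ≥ A,
      (N : ℝ) ≤ Real.log N ^ B * #{n ∈ Ioc N (2 * N) | r < #{p ∈ Icc n (n + S) | p.Prime} ∧
        ∀ p ∈ Icc n (n + S), p.Prime → ∀ w ∈ F, IsRoot (w : ℚ) p ↔ ε w = -1} := by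
  obtain ⟨K, M, B, hK, hmain⟩ := main1 r
  refine ⟨K, M, B, hK, fun ε hε => ?_⟩
  obtain ⟨a, ha1, ha2, ha3, ha4, ha5, ha6⟩ := system ε hε
  obtain ⟨V, hV, hF⟩ := hmain a ha1 ha2 ha3
  refine ⟨V, hV, fun F hFV => ?_⟩
  obtain ⟨m, hm⟩ : ∃ m : ℕ, m = 8 * ∏ w ∈ F, ((w : ℚ).num.natAbs * (w : ℚ).den) := ⟨_, rfl⟩
  have hpos : ∀ w : ℚˣ, 0 < (w : ℚ).num.natAbs * (w : ℚ).den := by
    intro w
    apply Nat.mul_pos
    · apply Nat.pos_of_ne_zero
      rw [Int.natAbs_ne_zero]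
      exact Rat.num_ne_zero.2 w.ne_zero
    · exact Nat.pos_of_ne_zero (w : ℚ).den_nz
  have hm0 : 0 < m := by
    rw [hm]
    exact Nat.mul_pos (by norm_num) (Finset.prod_pos fun w _ => hpos w)
  obtain ⟨S, hS⟩ := hF F hFV m hm0
  refine ⟨S, fun A => ?_⟩
  obtain ⟨N, hNA, hN⟩ := hS (A + m + 2)
  refine ⟨N, by omega, hN.trans ?_⟩
  apply mul_le_mul_of_nonneg_left _ (pow_nonneg (Real.log_natCast_nonneg N) B)
  norm_cast
  apply card_le_card
  intro n hn
  rw [mem_filter] at hn ⊢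
  refine ⟨hn.1, hn.2.1, fun p hp hpp w hw => ?_⟩
  obtain ⟨h1, h2⟩ := hn.2.2 p hp hpp
  have hnN := (mem_Ioc.1 hn.1).1
  have hpn := (mem_Icc.1 hp).1
  have hpm : m < p := by omega
  have : Fact p.Prime := ⟨hpp⟩
  rw [h2 w hw]
  have h8m : 8 ∣ m := by rw [hm]; exact dvd_mul_right _ _
  have hwm : (w : ℚ).num.natAbs * (w : ℚ).den ∣ m := by
    rw [hm]
    exact Dvd.dvd.mul_left (dvd_prod_of_mem (fun w : ℚˣ => (w : ℚ).num.natAbs * (w : ℚ).den) hw) _
  have hp8 : p ≡ a 8 [MOD 8] := (h1.of_dvd h8m).trans (ha2 8 m hm0 h8m)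
  obtain ⟨g1, g2⟩ := leg_class ε a ha4 ha5 ha6 p (by omega) hp8
  have hle : (w : ℚ).num.natAbs * (w : ℚ).den ≤ m := Nat.le_of_dvd hm0 hwm
  apply Leg_sq p ε w
  · apply rat_mem _ g1
    intro q hq hqd hq0
    have hqm : q ∣ m := hqd.trans hwm
    have hqle : q ≤ m := Nat.le_of_dvd hm0 hqm
    exact g2 q hq (by omega) ((h1.of_dvd hqm).trans (ha2 q m hm0 hqm)) hq0
  · intro h
    have h3 : p ∣ (w : ℚ).num.natAbs := Int.natCast_dvd.1 h
    have h4 := Nat.le_of_dvd (hpos w) (h3.mul_right (w : ℚ).den)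
    omega
  · intro h
    have h4 := Nat.le_of_dvd (hpos w) (h.mul_left (w : ℚ).num.natAbs)
    omega

end Pool.Agent.Run7.h166.SP
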